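import Mathlib.Analysis.Normed.Module.DoubleDual
import Mathlib.Analysis.RCLike.Basic
import Mathlib.Topology.MetricSpace.HausdorffDistance
import Mathlib.Analysis.Normed.Module.HahnBanach

/-!
# Statement-level definitions: completely continuous and weakly compact operators, the reciprocal
Dunford-Pettis property, and the quantities `wk`, `ca`, `cc`.
-/

noncomputable section

open Metric
open scoped ENNReal NNReal Topology

namespace Pool.Agent.X146.RDP

universe u v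

variable (𝕜 : Type) [RCLike 𝕜] (Y : Type v) [NormedAddCommGroup Y] [NormedSpace 𝕜 Y]

/-- The dual Banach space of `Y` (bounded functionals with the operator norm). -/
def Dual : Type v := StrongDual 𝕜 Y

instance dualGroup : NormedAddCommGroup (Dual 𝕜 Y) :=
  inferInstanceAs (NormedAddCommGroup (StrongDual 𝕜 Y))

instance dualSpace : NormedSpace 𝕜 (Dual 𝕜 Y) :=
  inferInstanceAs (NormedSpace 𝕜 (StrongDual 𝕜 Y))

variable {𝕜 Y}

/-- The value of a functional. -/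
def Dual.ev (φ : Dual 𝕜 Y) (y : Y) : 𝕜 := (show StrongDual 𝕜 Y from φ) y

/-- `a` lies in the weak-star closure of `A ⊆ Y` in the bidual of `Y`. -/
def InWeakStarClosure (A : Set Y) (a : Dual 𝕜 (Dual 𝕜 Y)) : Prop :=
  ∀ (F : Finset (Dual 𝕜 Y)) (δ : ℝ), 0 < δ → ∃ y ∈ A, ∀ φ ∈ F, ‖a.ev φ - φ.ev y‖ < δ

/-- The norm distance of an element of the bidual of `Y` to (the canonical image of) `Y`. -/
def distToSpace (a : Dual 𝕜 (Dual 𝕜 Y)) : ℝ≥0∞ :=
  ⨅ (b : Dual 𝕜 (Dual 𝕜 Y)) (_ : ∃ y : Y, ∀ φ : Dual 𝕜 Y, b.ev φ = φ.ev y),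
    ENNReal.ofReal ‖a - b‖

variable (𝕜)

/-- `wk_Y(A)`: the supremum of the distances to `Y` over the weak-star closure of `A`. -/
def wkSet (A : Set Y) : ℝ≥0∞ :=
  ⨆ (a : Dual 𝕜 (Dual 𝕜 Y)) (_ : InWeakStarClosure A a), distToSpace a

/-- The set `A` as a subset of `Y` with the weak topology. -/
def weakSet (A : Set Y) : Set (WeakSpace 𝕜 Y) := toWeakSpace 𝕜 Y '' A

/-- `A` is relatively weakly compact. -/
def RelWeaklyCompact (A : Set Y) : Prop := IsCompact (closure (weakSet 𝕜 A))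

variable {𝕜} {X : Type u} [NormedAddCommGroup X] [NormedSpace 𝕜 X]

variable (𝕜) in
/-- A sequence is weakly Cauchy when every bounded functional maps it to a Cauchy sequence. -/
def WeaklyCauchy (x : ℕ → X) : Prop :=
  ∀ φ : Dual 𝕜 X, CauchySeq fun n => φ.ev (x n)

/-- `T` is weakly compact: `T B_X` is relatively weakly compact. -/
def WeaklyCompact (T : X →L[𝕜] Y) : Prop := RelWeaklyCompact 𝕜 (T '' closedBall 0 1)

/-- `T` is completely continuous: it maps weakly Cauchy sequences to norm Cauchy sequences. -/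
def CompletelyContinuous (T : X →L[𝕜] Y) : Prop :=
  ∀ x : ℕ → X, WeaklyCauchy 𝕜 x → CauchySeq fun n => T (x n)

variable (𝕜) in
/-- The reciprocal Dunford-Pettis property (tested on all Banach spaces of universe `v`). -/
def RDPP (X : Type u) [NormedAddCommGroup X] [NormedSpace 𝕜 X] : Prop :=
  ∀ (Y : Type v) [NormedAddCommGroup Y] [NormedSpace 𝕜 Y] [CompleteSpace Y] (T : X →L[𝕜] Y),
    CompletelyContinuous T → WeaklyCompact T

/-- `wk_Y(T) = wk_Y(T B_X)`. -/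
def wkOp (T : X →L[𝕜] Y) : ℝ≥0∞ := wkSet 𝕜 (T '' closedBall 0 1)

/-- `ca(y_k) = inf_n sup {‖y_k - y_l‖ : k, l ≥ n}`. -/
def ca (y : ℕ → Y) : ℝ≥0∞ :=
  ⨅ n : ℕ, ⨆ k : ℕ, ⨆ l : ℕ, ⨆ _ : n ≤ k, ⨆ _ : n ≤ l, ENNReal.ofReal ‖y k - y l‖

/-- `cc(T)`: the supremum of `ca(T x_k)` over the weakly Cauchy sequences in the unit ball. -/
def ccOp (T : X →L[𝕜] Y) : ℝ≥0∞ :=
  ⨆ x : ℕ → X, ⨆ _ : WeaklyCauchy 𝕜 x, ⨆ _ : ∀ n, ‖x n‖ ≤ 1, ca fun n => T (x n)

end Pool.Agent.X146.RDP
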