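import Pool.Agent.X146.RD.Main
import Pool.Agent.X146.RD.Stmt

/-!
# The main theorem for the statement-level definitions
-/

noncomputable section

open Metric NormedSpace
open scoped ENNReal NNReal Topology

namespace Pool.Agent.X146.RDP

universe u v

variable {𝕜 : Type} [RCLike 𝕜]
variable {X : Type u} [NormedAddCommGroup X] [NormedSpace 𝕜 X]
variable {Y : Type v} [NormedAddCommGroup Y] [NormedSpace 𝕜 Y]

theorem weaklyCauchy_iff (x : ℕ → X) : WeaklyCauchy 𝕜 x ↔ RD.WeaklyCauchy 𝕜 x := Iff.rfl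

theorem completelyContinuous_iff (T : X →L[𝕜] Y) :
    CompletelyContinuous T ↔ RD.CompletelyContinuous T := Iff.rfl

theorem weaklyCompact_iff (T : X →L[𝕜] Y) : WeaklyCompact T ↔ RD.WeaklyCompact T := Iff.rfl

theorem ccOp_eq (T : X →L[𝕜] Y) : ccOp T = RD.ccOp T := rfl

theorem wkOp_ge (T : X →L[𝕜] Y) : RD.wkOp T ≤ wkOp T := by
  unfold RD.wkOp RD.wkSet wkOp wkSet
  refine iSup₂_le fun a ha => ?_
  have hcl : InWeakStarClosure (𝕜 := 𝕜) (T '' closedBall 0 1)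
      (show Dual 𝕜 (Dual 𝕜 Y) from WeakDual.toStrongDual a) := by
    intro F δ hδ
    obtain ⟨x, hx, hx'⟩ := RD.exists_near T a ha F δ hδ
    exact ⟨T x, ⟨x, by simpa using hx, rfl⟩, hx'⟩
  refine le_trans ?_ (le_iSup₂ (f := fun (a : Dual 𝕜 (Dual 𝕜 Y))
    (_ : InWeakStarClosure (T '' closedBall 0 1) a) => distToSpace a)
    (show Dual 𝕜 (Dual 𝕜 Y) from WeakDual.toStrongDual a) hcl)
  unfold distToSpace
  refine le_iInf₂ fun b hb => ?_
  obtain ⟨y, hy⟩ := hb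
  have hb' : (show StrongDual 𝕜 (StrongDual 𝕜 Y) from b) = inclusionInDoubleDual 𝕜 Y y := by
    apply DFunLike.ext
    intro φ
    exact hy φ
  have h1 := infEDist_le_edist_of_mem (x := WeakDual.toStrongDual a)
    (Set.mem_range_self (f := inclusionInDoubleDual 𝕜 Y) y)
  refine h1.trans (le_of_eq ?_)
  rw [edist_dist, dist_eq_norm, ← hb']
  rfl

/-- There is a Banach space with the reciprocal Dunford-Pettis property and without the
quantitative one. -/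
theorem main : ∃ (X : Type) (_ : NormedAddCommGroup X) (_ : NormedSpace 𝕜 X),
    CompleteSpace X ∧ RDPP.{0, v} 𝕜 X ∧
    ∀ C : ℝ≥0, ∃ (Y : Type) (_ : NormedAddCommGroup Y) (_ : NormedSpace 𝕜 Y)
      (T : X →L[𝕜] Y), CompleteSpace Y ∧ (C : ℝ≥0∞) * ccOp T < wkOp T := by
  obtain ⟨X, h1, h2, h3, h4, h5⟩ := RD.main.{v} (𝕜 := 𝕜)
  refine ⟨X, h1, h2, h3, fun Y _ _ _ T hT => h4 Y T hT, fun C => ?_⟩
  obtain ⟨Y, i1, i2, T, i3, i4⟩ := h5 C
  exact ⟨Y, i1, i2, T, i3, lt_of_lt_of_le i4 (wkOp_ge T)⟩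

end Pool.Agent.X146.RDP
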