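import Pool.Agent.X146.RD.Linf

/-!
# Control of a completely continuous operator on bounded functions by finitely many functionals
-/

noncomputable section

open Metric NormedSpace Filter
open scoped ENNReal NNReal Topology

namespace Pool.Agent.X146.RD

universe u v

variable {𝕜 : Type} [RCLike 𝕜]
variable {Y : Type v} [NormedAddCommGroup Y] [NormedSpace 𝕜 Y]
variable {Γ : Type}

theorem V_comp_le (T : Linf 𝕜 Γ →L[𝕜] Y) (φ : StrongDual 𝕜 Y) (hφ : ‖φ‖ ≤ 1) (A : Set Γ) :
    V (φ.comp T) A ≤ V T A := by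
  refine V_le _ fun f hf hs => ?_
  have h1 : ‖φ (T f)‖ ≤ ‖φ‖ * ‖T f‖ := φ.le_opNorm _
  have h2 : ‖φ‖ * ‖T f‖ ≤ 1 * ‖T f‖ := by gcongr
  have h3 := le_V T hf hs
  have : ‖(φ.comp T) f‖ = ‖φ (T f)‖ := rfl
  linarith

theorem sum_geom_le (m k : ℕ) : ∑ i ∈ Finset.Icc m (m + k), (1 / 2 : ℝ) ^ i ≤ 2 * (1 / 2) ^ m := by
  induction k with
  | zero =>
    simp
  | succ k ih =>
    have key : ∀ k : ℕ, ∑ i ∈ Finset.Icc m (m + k), (1 / 2 : ℝ) ^ i
        = 2 * (1 / 2) ^ m - (1 / 2) ^ (m + k) := by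
      intro k
      induction k with
      | zero => simp; ring
      | succ k ih2 =>
        rw [← add_assoc, Finset.sum_Icc_succ_top (by omega), ih2, pow_succ]
        ring
    rw [key]
    have : (0 : ℝ) ≤ (1 / 2) ^ (m + (k + 1)) := by positivity
    linarith

/-- Recursively chosen finite sets of functionals. -/
def chain {α : Type*} [DecidableEq α] (g : Finset α → ℕ → α) : ℕ → Finset α
  | 0 => ∅
  | n + 1 => insert (g (chain g n) n) (chain g n)

theorem chain_mono {α : Type*} [DecidableEq α] (g : Finset α → ℕ → α) : Monotone (chain g) :=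
  monotone_nat_of_le_succ fun n => by
    rw [chain]; exact Finset.subset_insert _ _

theorem mem_chain {α : Type*} [DecidableEq α] (g : Finset α → ℕ → α) {j n : ℕ} (h : j < n) :
    g (chain g j) j ∈ chain g n := by
  apply chain_mono g (Nat.succ_le_of_lt h)
  rw [Nat.succ_eq_add_one, chain]
  exact Finset.mem_insert_self _ _

theorem control {T : Linf 𝕜 Γ →L[𝕜] Y} (hT : CompletelyContinuous T) (ε : ℝ) (hε : 0 < ε) :
    ∃ Φ : Finset (StrongDual 𝕜 Y), ∃ δ : ℝ, 0 < δ ∧
      ∀ A : Set Γ, (∀ φ ∈ Φ, V (φ.comp T) A ≤ δ) → V T A ≤ ε := by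
  classical
  by_contra hcon
  push Not at hcon
  have step : ∀ (Φ : Finset (StrongDual 𝕜 Y)) (n : ℕ), ∃ (φ : StrongDual 𝕜 Y) (A : Set Γ),
      ‖φ‖ ≤ 1 ∧ (∀ ψ ∈ Φ, V (ψ.comp T) A ≤ (1 / 2) ^ n) ∧ ε < V (φ.comp T) A := by
    intro Φ n
    obtain ⟨A, hA, hlt⟩ := hcon Φ ((1 / 2) ^ n) (by positivity)
    obtain ⟨f, hf, hs, hl⟩ := exists_lt_V T hlt
    obtain ⟨g, hg, hg'⟩ := exists_dual_vector'' 𝕜 (T f)
    refine ⟨g, A, hg, hA, ?_⟩
    refine hl.trans_le ?_
    have h1 := le_V (g.comp T) hf hs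
    have h2 : ‖(g.comp T) f‖ = ‖T f‖ := by
      rw [ContinuousLinearMap.comp_apply, hg', RCLike.norm_ofReal, abs_norm]
    rwa [h2] at h1
  choose g B hg1 hB hgB using step
  let Φ := chain g
  let φ : ℕ → StrongDual 𝕜 Y := fun n => g (Φ n) n
  let A : ℕ → Set Γ := fun n => B (Φ n) n
  have hφ1 : ∀ n, ‖φ n‖ ≤ 1 := fun n => hg1 _ _
  have hsmall : ∀ j n, j < n → V ((φ j).comp T) (A n) ≤ (1 / 2) ^ n := fun j n h =>
    hB _ _ _ (mem_chain g h)
  have hbig : ∀ n, ε < V ((φ n).comp T) (A n) := fun n => hgB _ _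
  -- increasing unions
  let U : ℕ → ℕ → Set Γ := fun n k => ⋃ i ∈ Finset.Icc n (n + k), A i
  have hUm : ∀ n, Monotone (U n) := by
    intro n k k' hk γ hγ
    simp only [U, Set.mem_iUnion, Finset.mem_Icc] at hγ ⊢
    obtain ⟨i, hi, h⟩ := hγ
    exact ⟨i, ⟨hi.1, by omega⟩, h⟩
  have hinc : ∀ n, ∃ k, ∀ k', k ≤ k' → V T (U n k' \ U n k) ≤ ε / 8 * (1 / 2) ^ n := fun n =>
    inc hT (U n) (hUm n) _ (by positivity)
  choose k hk using hinc
  let W : ℕ → Set Γ := fun n => ⋂ j ∈ Finset.range (n + 1), U j (k j)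
  have hWanti : Antitone W := by
    intro m n hmn γ hγ
    simp only [W, Set.mem_iInter, Finset.mem_range] at hγ ⊢
    intro j hj
    exact hγ j (by omega)
  -- the lower bound
  have hlow : ∀ m, ε - ε / 4 ≤ V ((φ m).comp T) (W m) := by
    intro m
    have hsub : A m ⊆ W m ∪ ⋃ j ∈ Finset.range (m + 1), (A m \ U j (k j)) := by
      intro γ hγ
      by_cases h : γ ∈ W m
      · exact Or.inl h
      · right
        simp only [W, Set.mem_iInter, Finset.mem_range, not_forall] at h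
        obtain ⟨j, hj, h⟩ := h
        simp only [Set.mem_iUnion, Finset.mem_range]
        exact ⟨j, hj, hγ, h⟩
    have h1 := V_mono ((φ m).comp T) hsub
    have h2 := V_union_le ((φ m).comp T) (W m) (⋃ j ∈ Finset.range (m + 1), (A m \ U j (k j)))
    have h3 := V_biUnion_le ((φ m).comp T) (Finset.range (m + 1)) (fun j => A m \ U j (k j))
    have h4 : ∑ j ∈ Finset.range (m + 1), V ((φ m).comp T) (A m \ U j (k j))
        ≤ ∑ j ∈ Finset.range (m + 1), ε / 8 * (1 / 2) ^ j := by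
      refine Finset.sum_le_sum fun j hj => ?_
      have hjm : j ≤ m := by
        have := Finset.mem_range.1 hj; omega
      have hAU : A m ⊆ U j (m - j) := by
        intro γ hγ
        simp only [U, Set.mem_iUnion, Finset.mem_Icc]
        exact ⟨m, ⟨hjm, by omega⟩, hγ⟩
      rcases le_total (k j) (m - j) with hle | hle
      · refine (V_mono _ (Set.sdiff_subset_sdiff_left hAU)).trans ?_
        exact (V_comp_le T (φ m) (hφ1 m) _).trans (hk j _ hle)
      · have he : A m \ U j (k j) = ∅ :=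
          Set.sdiff_eq_empty.2 (hAU.trans (hUm j hle))
        rw [he, V_empty]
        positivity
    have h5 : ∑ j ∈ Finset.range (m + 1), ε / 8 * (1 / 2 : ℝ) ^ j ≤ ε / 4 := by
      rw [← Finset.mul_sum]
      have : ∑ j ∈ Finset.range (m + 1), (1 / 2 : ℝ) ^ j ≤ 2 := by
        have h := sum_geom_le 0 m
        have e : Finset.Icc 0 (0 + m) = Finset.range (m + 1) := by
          ext i; simp
        rw [e] at h
        simpa using h
      nlinarith
    have h6 := hbig m
    linarith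
  -- the upper bound
  have hup : ∀ j m, j < m → V ((φ j).comp T) (W m) ≤ 2 * (1 / 2) ^ m := by
    intro j m hjm
    have h1 : W m ⊆ U m (k m) := by
      intro γ hγ
      simp only [W, Set.mem_iInter, Finset.mem_range] at hγ
      exact hγ m (by omega)
    refine (V_mono _ h1).trans ((V_biUnion_le _ _ _).trans ?_)
    refine (Finset.sum_le_sum fun i hi => hsmall j i ?_).trans (sum_geom_le m (k m))
    have := (Finset.mem_Icc.1 hi).1
    omega
  obtain ⟨k₀, hk₀⟩ := dec hT W hWanti (ε / 4) (by positivity)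
  have hlim : Tendsto (fun m : ℕ => 2 * (1 / 2 : ℝ) ^ m) atTop (𝓝 0) := by
    have := (tendsto_pow_atTop_nhds_zero_of_lt_one (by norm_num : (0:ℝ) ≤ 1 / 2)
      (by norm_num)).const_mul 2
    simpa using this
  obtain ⟨m, hm1, hm2⟩ := ((hlim.eventually (gt_mem_nhds (by positivity : (0:ℝ) < ε / 4))).and
    (eventually_gt_atTop k₀)).exists
  have h1 := hlow k₀
  have h2 : W k₀ ⊆ (W k₀ \ W m) ∪ W m := by
    intro γ hγ
    by_cases h : γ ∈ W m
    · exact Or.inr h
    · exact Or.inl ⟨hγ, h⟩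
  have h3 := (V_mono ((φ k₀).comp T) h2).trans (V_union_le _ _ _)
  have h4 := (V_comp_le T (φ k₀) (hφ1 k₀) (W k₀ \ W m)).trans (hk₀ m hm2.le)
  have h5 := hup k₀ m hm2
  linarith

end Pool.Agent.X146.RD
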