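import Mathlib.Analysis.Normed.Module.DoubleDual
import Mathlib.Analysis.RCLike.Basic
import Mathlib.Topology.MetricSpace.HausdorffDistance
import Mathlib.Analysis.Normed.Module.HahnBanach

/-!
# Definitions: completely continuous and weakly compact operators, the reciprocal
Dunford-Pettis property and its quantitative version.
-/

noncomputable section

open Metric NormedSpace
open scoped ENNReal NNReal Topology

namespace Pool.Agent.X146.RD

universe u v

variable (𝕜 : Type) [RCLike 𝕜]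
variable {X : Type u} [NormedAddCommGroup X] [NormedSpace 𝕜 X]
variable {Y : Type v} [NormedAddCommGroup Y] [NormedSpace 𝕜 Y]

/-- A sequence is weakly Cauchy when every bounded functional maps it to a Cauchy sequence. -/
def WeaklyCauchy (x : ℕ → X) : Prop :=
  ∀ φ : StrongDual 𝕜 X, CauchySeq fun n => φ (x n)

variable {𝕜}

/-- `T` is weakly compact: the image of the closed unit ball is relatively weakly compact. -/
def WeaklyCompact (T : X →L[𝕜] Y) : Prop :=
  IsCompact (closure (toWeakSpace 𝕜 Y '' (T '' closedBall 0 1)))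

/-- `T` is completely continuous: it maps weakly Cauchy sequences to norm Cauchy sequences. -/
def CompletelyContinuous (T : X →L[𝕜] Y) : Prop :=
  ∀ x : ℕ → X, WeaklyCauchy 𝕜 x → CauchySeq fun n => T (x n)

variable (𝕜)

/-- The reciprocal Dunford-Pettis property (tested on all Banach spaces of universe `v`). -/
def RDPP (X : Type u) [NormedAddCommGroup X] [NormedSpace 𝕜 X] : Prop :=
  ∀ (Y : Type v) [NormedAddCommGroup Y] [NormedSpace 𝕜 Y] [CompleteSpace Y] (T : X →L[𝕜] Y),
    CompletelyContinuous T → WeaklyCompact T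

/-- `wk_Y(A)`: the supremum, over the weak-star closure of `A` in the bidual of `Y`, of the
norm distances to `Y`. -/
def wkSet (A : Set Y) : ℝ≥0∞ :=
  ⨆ a ∈ closure (inclusionInDoubleDualWeak 𝕜 Y '' (toWeakSpace 𝕜 Y '' A)),
    infEDist (WeakDual.toStrongDual a) (Set.range (inclusionInDoubleDual 𝕜 Y))

variable {𝕜}

/-- `wk_Y(T) = wk_Y(T B_X)`. -/
def wkOp (T : X →L[𝕜] Y) : ℝ≥0∞ := wkSet 𝕜 (T '' closedBall 0 1)

/-- `ca(y_k) = inf_n sup {‖y_k - y_l‖ : k, l ≥ n}`. -/
def ca (y : ℕ → Y) : ℝ≥0∞ :=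
  ⨅ n : ℕ, ⨆ k : ℕ, ⨆ l : ℕ, ⨆ _ : n ≤ k, ⨆ _ : n ≤ l, ENNReal.ofReal ‖y k - y l‖

/-- `cc(T)`: the supremum of `ca(T x_k)` over the weakly Cauchy sequences in the unit ball. -/
def ccOp (T : X →L[𝕜] Y) : ℝ≥0∞ :=
  ⨆ x : ℕ → X, ⨆ _ : WeaklyCauchy 𝕜 x, ⨆ _ : ∀ n, ‖x n‖ ≤ 1, ca fun n => T (x n)

variable (𝕜)

/-- The quantitative reciprocal Dunford-Pettis property (tested on all Banach spaces of
universe `v`). -/
def QuantRDPP (X : Type u) [NormedAddCommGroup X] [NormedSpace 𝕜 X] : Prop :=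
  ∃ C : ℝ≥0, ∀ (Y : Type v) [NormedAddCommGroup Y] [NormedSpace 𝕜 Y] [CompleteSpace Y]
    (T : X →L[𝕜] Y), wkOp T ≤ C * ccOp T

end Pool.Agent.X146.RD
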