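import Pool.Agent.X146.RD.Control

/-!
# Completely continuous operators on bounded functions satisfy `HApprox`
-/

noncomputable section

open Metric NormedSpace Filter
open scoped ENNReal NNReal Topology

namespace Pool.Agent.X146.RD

universe u v

variable {𝕜 : Type} [RCLike 𝕜]
variable {Y : Type v} [NormedAddCommGroup Y] [NormedSpace 𝕜 Y]
variable {Γ : Type}

/-- Variation of a functional on the order interval of `u`. -/
def Nv (L : StrongDual 𝕜 (Linf 𝕜 Γ)) (u : Γ → ℝ) : ℝ :=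
  sSup ((fun f => ‖L f‖) '' {f | ∀ γ, ‖f γ‖ ≤ u γ})

variable {L : StrongDual 𝕜 (Linf 𝕜 Γ)} {u w : Γ → ℝ} {C D : ℝ}

theorem Nv_bdd (hC : 0 ≤ C) (hu : ∀ γ, u γ ≤ C) :
    BddAbove ((fun f => ‖L f‖) '' {f | ∀ γ, ‖f γ‖ ≤ u γ}) := by
  refine ⟨‖L‖ * C, ?_⟩
  rintro _ ⟨f, hf, rfl⟩
  refine (L.le_opNorm f).trans ?_
  have : ‖f‖ ≤ C := lp.norm_le_of_forall_le hC fun γ => (hf γ).trans (hu γ)
  gcongr

theorem Nv_ne (hu0 : ∀ γ, 0 ≤ u γ) :
    ((fun f => ‖L f‖) '' {f | ∀ γ, ‖f γ‖ ≤ u γ}).Nonempty :=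
  ⟨_, 0, fun γ => by simpa using hu0 γ, rfl⟩

theorem le_Nv (hC : 0 ≤ C) (hu : ∀ γ, u γ ≤ C) {f : Linf 𝕜 Γ} (hf : ∀ γ, ‖f γ‖ ≤ u γ) :
    ‖L f‖ ≤ Nv L u :=
  le_csSup (Nv_bdd hC hu) ⟨f, hf, rfl⟩

theorem Nv_le (hu0 : ∀ γ, 0 ≤ u γ) {c : ℝ} (h : ∀ f : Linf 𝕜 Γ, (∀ γ, ‖f γ‖ ≤ u γ) → ‖L f‖ ≤ c) :
    Nv L u ≤ c := by
  refine csSup_le (Nv_ne hu0) ?_
  rintro _ ⟨f, hf, rfl⟩
  exact h f hf

theorem Nv_nonneg (hu0 : ∀ γ, 0 ≤ u γ) (hC : 0 ≤ C) (hu : ∀ γ, u γ ≤ C) : 0 ≤ Nv L u :=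
  (norm_nonneg (L 0)).trans (le_Nv hC hu (f := (0 : Linf 𝕜 Γ)) (fun γ => by
    simpa using hu0 γ))

theorem Nv_superadd (hu0 : ∀ γ, 0 ≤ u γ) (hw0 : ∀ γ, 0 ≤ w γ)
    (hC : 0 ≤ C) (hu : ∀ γ, u γ + w γ ≤ C) : Nv L u + Nv L w ≤ Nv L (fun γ => u γ + w γ) := by
  have h1 : Nv L u ≤ Nv L (fun γ => u γ + w γ) - Nv L w := by
    refine Nv_le hu0 fun f hf => ?_
    have h2 : Nv L w ≤ Nv L (fun γ => u γ + w γ) - ‖L f‖ := by
      refine Nv_le hw0 fun g hg => ?_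
      obtain ⟨c, hc, hcf⟩ := exists_unimod (L f)
      obtain ⟨d, hd, hdg⟩ := exists_unimod (L g)
      have h3 : ‖L (c • f + d • g)‖ ≤ Nv L (fun γ => u γ + w γ) := by
        refine le_Nv hC hu fun γ => ?_
        rw [lp.coeFn_add, lp.coeFn_smul, lp.coeFn_smul]
        refine (norm_add_le _ _).trans ?_
        simp only [Pi.smul_apply, smul_eq_mul, norm_mul, hc, hd, one_mul]
        exact add_le_add (hf γ) (hg γ)
      have h4 : ‖L (c • f + d • g)‖ = ‖L f‖ + ‖L g‖ := by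
        rw [map_add, map_smul, map_smul, smul_eq_mul, smul_eq_mul, hcf, hdg, ← RCLike.ofReal_add,
          RCLike.norm_ofReal, abs_of_nonneg (by positivity)]
      linarith
    linarith
  linarith

/-- Splitting of a function dominated by a sum. -/
theorem split_exists (hu0 : ∀ γ, 0 ≤ u γ) (hw0 : ∀ γ, 0 ≤ w γ) (f : Linf 𝕜 Γ)
    (hf : ∀ γ, ‖f γ‖ ≤ u γ + w γ) :
    ∃ g h : Linf 𝕜 Γ, f = g + h ∧ (∀ γ, ‖g γ‖ ≤ u γ) ∧ (∀ γ, ‖h γ‖ ≤ w γ) := by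
  have hs : ∀ γ, ‖((u γ / (u γ + w γ) : ℝ) : 𝕜) * f γ‖ = u γ / (u γ + w γ) * ‖f γ‖ := by
    intro γ
    rw [norm_mul, RCLike.norm_ofReal, abs_of_nonneg (div_nonneg (hu0 γ) (add_nonneg (hu0 γ) (hw0 γ)))]
  have hs' : ∀ γ, ‖((w γ / (u γ + w γ) : ℝ) : 𝕜) * f γ‖ = w γ / (u γ + w γ) * ‖f γ‖ := by
    intro γ
    rw [norm_mul, RCLike.norm_ofReal, abs_of_nonneg (div_nonneg (hw0 γ) (add_nonneg (hu0 γ) (hw0 γ)))]
  have hle1 : ∀ γ, u γ / (u γ + w γ) ≤ 1 := fun γ =>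
    div_le_one_of_le₀ (by linarith [hw0 γ]) (add_nonneg (hu0 γ) (hw0 γ))
  have hle2 : ∀ γ, w γ / (u γ + w γ) ≤ 1 := fun γ =>
    div_le_one_of_le₀ (by linarith [hu0 γ]) (add_nonneg (hu0 γ) (hw0 γ))
  have hb1 : ∀ γ, ‖((u γ / (u γ + w γ) : ℝ) : 𝕜) * f γ‖ ≤ ‖f‖ := by
    intro γ
    rw [hs]
    nlinarith [apply_le f γ, hle1 γ, norm_nonneg (f γ)]
  have hb2 : ∀ γ, ‖((w γ / (u γ + w γ) : ℝ) : 𝕜) * f γ‖ ≤ ‖f‖ := by
    intro γ
    rw [hs']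
    nlinarith [apply_le f γ, hle2 γ, norm_nonneg (f γ)]
  refine ⟨mkLinf _ _ hb1, mkLinf _ _ hb2, ?_, ?_, ?_⟩
  · ext γ
    rw [lp.coeFn_add, Pi.add_apply, mkLinf_apply, mkLinf_apply, ← add_mul, ← RCLike.ofReal_add]
    by_cases h0 : u γ + w γ = 0
    · have : f γ = 0 := by
        have := hf γ
        rw [h0] at this
        exact norm_le_zero_iff.1 this
      rw [this, mul_zero]
    · rw [← add_div, div_self h0]
      simp
  · intro γ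
    rw [mkLinf_apply, hs]
    by_cases h0 : u γ + w γ = 0
    · rw [h0]; simp [hu0 γ]
    · have hpos : 0 < u γ + w γ := lt_of_le_of_ne (add_nonneg (hu0 γ) (hw0 γ)) (Ne.symm h0)
      rw [div_mul_eq_mul_div, div_le_iff₀ hpos]
      exact mul_le_mul_of_nonneg_left (hf γ) (hu0 γ)
  · intro γ
    rw [mkLinf_apply, hs']
    by_cases h0 : u γ + w γ = 0
    · rw [h0]; simp [hw0 γ]
    · have hpos : 0 < u γ + w γ := lt_of_le_of_ne (add_nonneg (hu0 γ) (hw0 γ)) (Ne.symm h0)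
      rw [div_mul_eq_mul_div, div_le_iff₀ hpos]
      exact mul_le_mul_of_nonneg_left (hf γ) (hw0 γ)

theorem Nv_subadd (hu0 : ∀ γ, 0 ≤ u γ) (hw0 : ∀ γ, 0 ≤ w γ)
    (hC : 0 ≤ C) (hu : ∀ γ, u γ ≤ C) (hw : ∀ γ, w γ ≤ C) :
    Nv L (fun γ => u γ + w γ) ≤ Nv L u + Nv L w := by
  refine Nv_le (fun γ => add_nonneg (hu0 γ) (hw0 γ)) fun f hf => ?_
  obtain ⟨g, h, rfl, hg, hh⟩ := split_exists hu0 hw0 f hf
  rw [map_add]
  exact (norm_add_le _ _).trans (add_le_add (le_Nv hC hu hg) (le_Nv hC hw hh))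

theorem Nv_scale (hu0 : ∀ γ, 0 ≤ u γ) (hC : 0 ≤ C) (hu : ∀ γ, u γ ≤ C) (c : ℝ) (hc : 0 < c) :
    c * Nv L u ≤ Nv L (fun γ => c * u γ) := by
  have h1 : Nv L u ≤ Nv L (fun γ => c * u γ) / c := by
    refine Nv_le hu0 fun f hf => ?_
    rw [le_div_iff₀ hc]
    have h2 : ‖L ((c : 𝕜) • f)‖ ≤ Nv L (fun γ => c * u γ) := by
      refine le_Nv (C := c * C) (by positivity) (fun γ => by
        exact mul_le_mul_of_nonneg_left (hu γ) hc.le) fun γ => ?_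
      rw [lp.coeFn_smul, Pi.smul_apply, smul_eq_mul, norm_mul, RCLike.norm_ofReal,
        abs_of_pos hc]
      exact mul_le_mul_of_nonneg_left (hf γ) hc.le
    rw [map_smul, smul_eq_mul, norm_mul, RCLike.norm_ofReal, abs_of_pos hc] at h2
    linarith
  rw [le_div_iff₀ hc] at h1
  linarith

/-- The quadratic function of a functional. -/
def qf (L : StrongDual 𝕜 (Linf 𝕜 Γ)) (f : Linf 𝕜 Γ) : ℝ := Nv L (fun γ => ‖f γ‖ ^ 2)

theorem sq_le_of (f : Linf 𝕜 Γ) {c : ℝ} (hf : ‖f‖ ≤ c) (γ : Γ) : ‖f γ‖ ^ 2 ≤ c ^ 2 := by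
  have h := (apply_le f γ).trans hf
  have h0 := norm_nonneg (f γ)
  nlinarith

theorem qf_nonneg (f : Linf 𝕜 Γ) : 0 ≤ qf L f :=
  Nv_nonneg (C := ‖f‖ ^ 2) (fun γ => by positivity) (by positivity) (sq_le_of f le_rfl)

theorem qf_le (f : Linf 𝕜 Γ) (hf : ‖f‖ ≤ 1) : qf L f ≤ ‖L‖ := by
  refine Nv_le (fun γ => by positivity) fun g hg => ?_
  refine L.unit_le_opNorm g ?_
  refine lp.norm_le_of_forall_le zero_le_one fun γ => (hg γ).trans ?_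
  simpa using sq_le_of f hf γ

theorem qf_par (f g : Linf 𝕜 Γ) (hf : ‖f‖ ≤ 1) (hg : ‖g‖ ≤ 1) :
    qf L (f - g) + 4 * qf L ((2⁻¹ : 𝕜) • (f + g)) ≤ 2 * qf L f + 2 * qf L g := by
  have hfg : ‖f - g‖ ≤ 2 := (norm_sub_le _ _).trans (by linarith)
  have hfg' : ‖f + g‖ ≤ 2 := (norm_add_le _ _).trans (by linarith)
  have hh : ‖(2⁻¹ : 𝕜) • (f + g)‖ ≤ 1 := norm_half_add_le hf hg
  have h4 : 4 * qf L ((2⁻¹ : 𝕜) • (f + g)) ≤ Nv L (fun γ => ‖(f + g) γ‖ ^ 2) := by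
    have h := Nv_scale (L := L) (u := fun γ => ‖((2⁻¹ : 𝕜) • (f + g) : Linf 𝕜 Γ) γ‖ ^ 2)
      (C := 1 ^ 2) (fun γ => by positivity) (by norm_num) (sq_le_of _ hh) 4 (by norm_num)
    have e : (fun γ => 4 * ‖((2⁻¹ : 𝕜) • (f + g) : Linf 𝕜 Γ) γ‖ ^ 2)
        = fun γ => ‖(f + g) γ‖ ^ 2 := by
      funext γ
      rw [lp.coeFn_smul, Pi.smul_apply, norm_smul]
      have h2 : ‖(2⁻¹ : 𝕜)‖ = 2⁻¹ := by rw [norm_inv, RCLike.norm_ofNat]
      rw [h2]; ring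
    rw [e] at h
    exact h
  have h5 := Nv_superadd (L := L) (u := fun γ => ‖(f - g) γ‖ ^ 2) (w := fun γ => ‖(f + g) γ‖ ^ 2)
    (C := 8) (fun γ => by positivity) (fun γ => by positivity) (by norm_num) (fun γ => by
      have a1 := sq_le_of (f - g) hfg γ
      have a2 := sq_le_of (f + g) hfg' γ
      linarith)
  have e : (fun γ => ‖(f - g) γ‖ ^ 2 + ‖(f + g) γ‖ ^ 2)
      = fun γ => (‖f γ‖ ^ 2 + ‖g γ‖ ^ 2) + (‖f γ‖ ^ 2 + ‖g γ‖ ^ 2) := by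
    funext γ
    have := parallelogram_law_with_norm 𝕜 (f γ) (g γ)
    rw [lp.coeFn_sub, lp.coeFn_add, Pi.sub_apply, Pi.add_apply]
    nlinarith
  rw [e] at h5
  have hb1 := sq_le_of f hf
  have hb2 := sq_le_of g hg
  have h6 := Nv_subadd (L := L) (u := fun γ => ‖f γ‖ ^ 2 + ‖g γ‖ ^ 2)
    (w := fun γ => ‖f γ‖ ^ 2 + ‖g γ‖ ^ 2) (C := 2) (fun γ => by positivity)
    (fun γ => by positivity) (by norm_num) (fun γ => by linarith [hb1 γ, hb2 γ])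
    (fun γ => by linarith [hb1 γ, hb2 γ])
  have h7 := Nv_subadd (L := L) (u := fun γ => ‖f γ‖ ^ 2) (w := fun γ => ‖g γ‖ ^ 2) (C := 1)
    (fun γ => by positivity) (fun γ => by positivity) (by norm_num)
    (fun γ => by linarith [hb1 γ]) (fun γ => by linarith [hb2 γ])
  unfold qf at *
  linarith

/-- Chebyshev's inequality. -/
theorem cheb (f : Linf 𝕜 Γ) (t : ℝ) (ht : 0 < t) :
    V L {γ | t < ‖f γ‖} * t ^ 2 ≤ qf L f := by
  have h1 : V L {γ | t < ‖f γ‖} ≤ qf L f / t ^ 2 := by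
    refine V_le L fun g hg hs => ?_
    rw [le_div_iff₀ (by positivity)]
    have h2 : ‖L (((t ^ 2 : ℝ) : 𝕜) • g)‖ ≤ qf L f := by
      refine le_Nv (C := ‖f‖ ^ 2) (by positivity) (sq_le_of f le_rfl) fun γ => ?_
      rw [lp.coeFn_smul, Pi.smul_apply, smul_eq_mul, norm_mul, RCLike.norm_ofReal,
        abs_of_nonneg (by positivity)]
      by_cases h : t < ‖f γ‖
      · have h3 := (apply_le g γ).trans hg
        have h4 : t ^ 2 ≤ ‖f γ‖ ^ 2 := by nlinarith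
        have h5 := norm_nonneg (g γ)
        nlinarith [sq_nonneg t]
      · rw [hs γ h, norm_zero, mul_zero]
        positivity
    rw [map_smul, smul_eq_mul, norm_mul, RCLike.norm_ofReal, abs_of_nonneg (by positivity)] at h2
    linarith
  rw [le_div_iff₀ (by positivity)] at h1
  exact h1

theorem hApprox_linf {T : Linf 𝕜 Γ →L[𝕜] Y} (hT : CompletelyContinuous T) : HApprox T := by
  classical
  intro ε hε
  obtain ⟨Φ, δ, hδ, hΦ⟩ := control hT (ε / 4) (by positivity)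
  set t : ℝ := ε / (2 * (‖T‖ + 1)) with ht
  have hTn := norm_nonneg T
  have htpos : 0 < t := by positivity
  refine ⟨fun f => ∑ φ ∈ Φ, qf (φ.comp T) f, fun f => Finset.sum_nonneg fun φ _ => qf_nonneg f,
    ⟨∑ φ ∈ Φ, ‖φ.comp T‖, fun f hf => Finset.sum_le_sum fun φ _ => qf_le f hf⟩, ?_,
    δ * t ^ 2, by positivity, ?_⟩
  · intro f g hf hg
    simp only [Finset.mul_sum]
    rw [← Finset.sum_add_distrib, ← Finset.sum_add_distrib]
    exact Finset.sum_le_sum fun φ _ => qf_par f g hf hg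
  · intro f g hf hg hq
    set w := f - g with hw
    have hw2 : ‖w‖ ≤ 2 := (norm_sub_le _ _).trans (by linarith)
    set A : Set Γ := {γ | t < ‖w γ‖} with hA
    have hVT : V T A ≤ ε / 4 := by
      refine hΦ A fun φ hφ => ?_
      have h1 := cheb (L := φ.comp T) w t htpos
      have h2 : qf (φ.comp T) w ≤ ∑ φ ∈ Φ, qf (φ.comp T) w :=
        Finset.single_le_sum (f := fun φ => qf (φ.comp T) w) (fun φ _ => qf_nonneg w) hφ
      have h3 : V (φ.comp T) A * t ^ 2 ≤ δ * t ^ 2 := h1.trans (h2.trans hq)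
      exact le_of_mul_le_mul_right h3 (by positivity)
    rw [← map_sub, ← hw, ← cut_add_compl A w, map_add]
    have h1 : ‖T (cut A w)‖ ≤ ε / 2 := by
      have h2 : ‖T ((2⁻¹ : 𝕜) • cut A w)‖ ≤ V T A := by
        refine le_V T ?_ fun γ hγ => ?_
        · rw [norm_smul, norm_inv, RCLike.norm_ofNat]
          have := (norm_cut_le A w).trans hw2
          linarith
        · rw [lp.coeFn_smul, Pi.smul_apply, cut_apply_notMem hγ, smul_zero]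
      rw [map_smul, norm_smul, norm_inv, RCLike.norm_ofNat] at h2
      linarith
    have h2 : ‖T (cut Aᶜ w)‖ ≤ ε / 2 := by
      have h3 : ‖cut Aᶜ w‖ ≤ t := by
        refine lp.norm_le_of_forall_le htpos.le fun γ => ?_
        by_cases h : γ ∈ A
        · rw [cut_apply_notMem (by simpa using h)]; simpa using htpos.le
        · rw [cut_apply_mem (by simpa using h)]
          simpa [hA] using h
      calc ‖T (cut Aᶜ w)‖ ≤ ‖T‖ * ‖cut Aᶜ w‖ := T.le_opNorm _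
        _ ≤ (‖T‖ + 1) * t := by
            apply mul_le_mul (by linarith) h3 (norm_nonneg _) (by linarith)
        _ = ε / 2 := by rw [ht]; field_simp
    exact (norm_add_le _ _).trans (by linarith)

end Pool.Agent.X146.RD
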