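import Pool.Agent.X146.RD.WComp
import Mathlib.Analysis.Normed.Lp.lpSpace
import Mathlib.Analysis.InnerProductSpace.Basic
import Mathlib.Analysis.SpecificLimits.Normed

/-!
# The reciprocal Dunford-Pettis property of spaces of bounded functions, in a form that
produces the Hilbertian-like functions of `HApprox`.
-/

noncomputable section

open Metric NormedSpace Filter
open scoped ENNReal NNReal Topology

namespace Pool.Agent.X146.RD

universe u v

variable {𝕜 : Type} [RCLike 𝕜]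
variable {X : Type u} [NormedAddCommGroup X] [NormedSpace 𝕜 X]
variable {Y : Type v} [NormedAddCommGroup Y] [NormedSpace 𝕜 Y]

/-- Unimodular factor making a scalar nonnegative. -/
theorem exists_unimod (z : 𝕜) : ∃ c : 𝕜, ‖c‖ = 1 ∧ c * z = (‖z‖ : 𝕜) := by
  by_cases hz : z = 0
  · exact ⟨1, by simp, by simp [hz]⟩
  · have hn : ‖z‖ ≠ 0 := norm_ne_zero_iff.2 hz
    have hn' : ((‖z‖ : ℝ) : 𝕜) ≠ 0 := by exact_mod_cast hn
    refine ⟨(starRingEnd 𝕜) z / (‖z‖ : 𝕜), ?_, ?_⟩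
    · rw [norm_div, RCLike.norm_conj, RCLike.norm_ofReal, abs_norm, div_self hn]
    · rw [div_mul_eq_mul_div, RCLike.conj_mul, pow_two, mul_div_assoc, div_self hn', mul_one]

/-- Completely continuous operators map weakly null sequences to null sequences. -/
theorem tendsto_zero_of_cc {T : X →L[𝕜] Y} (hT : CompletelyContinuous T) {z : ℕ → X}
    (hz : ∀ φ : StrongDual 𝕜 X, Tendsto (fun n => φ (z n)) atTop (𝓝 0)) :
    Tendsto (fun n => T (z n)) atTop (𝓝 0) := by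
  classical
  set x : ℕ → X := fun n => if n % 2 = 0 then z (n / 2) else 0 with hx
  have hdiv : Tendsto (fun n : ℕ => n / 2) atTop atTop :=
    Nat.tendsto_div_const_atTop (by norm_num)
  have hw : WeaklyCauchy 𝕜 x := by
    intro φ
    have h0 : Tendsto (fun n => φ (x n)) atTop (𝓝 0) := by
      have h1 : Tendsto (fun n => ‖φ (z (n / 2))‖) atTop (𝓝 0) := by
        have := ((hz φ).comp hdiv).norm
        simpa using this
      refine squeeze_zero_norm (fun n => ?_) h1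
      by_cases h : n % 2 = 0
      · simp [hx, h]
      · simp [hx, h]
    exact h0.cauchySeq
  have hc := hT x hw
  rw [Metric.tendsto_atTop]
  intro ε hε
  obtain ⟨N, hN⟩ := Metric.cauchySeq_iff.1 hc ε hε
  refine ⟨N, fun n hn => ?_⟩
  have := hN (2 * n) (by omega) (2 * n + 1) (by omega)
  have h1 : x (2 * n) = z n := by simp [hx]
  have h2 : x (2 * n + 1) = 0 := by
    have : (2 * n + 1) % 2 = 1 := by omega
    simp [hx, this]
  rw [h1, h2, map_zero] at this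
  exact this

/-- Bounded functions on `Γ`. -/
abbrev Linf (𝕜 : Type) [RCLike 𝕜] (Γ : Type) := lp (fun _ : Γ => 𝕜) ∞

variable {Γ : Type}

/-- Constructor. -/
def mkLinf (u : Γ → 𝕜) (C : ℝ) (h : ∀ γ, ‖u γ‖ ≤ C) : Linf 𝕜 Γ :=
  ⟨u, memℓp_infty ⟨C, by rintro _ ⟨γ, rfl⟩; exact h γ⟩⟩

@[simp] theorem mkLinf_apply (u : Γ → 𝕜) (C : ℝ) (h : ∀ γ, ‖u γ‖ ≤ C) (γ : Γ) :
    mkLinf u C h γ = u γ := rfl

theorem apply_le (f : Linf 𝕜 Γ) (γ : Γ) : ‖f γ‖ ≤ ‖f‖ :=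
  lp.norm_apply_le_norm (by simp) f γ

/-- Restriction of a function to a set. -/
def cut (A : Set Γ) (f : Linf 𝕜 Γ) : Linf 𝕜 Γ :=
  mkLinf (A.indicator f) ‖f‖ (fun γ => by
    by_cases h : γ ∈ A
    · simpa [Set.indicator_of_mem h] using apply_le f γ
    · simp [Set.indicator_of_notMem h])

theorem cut_apply_mem {A : Set Γ} {γ : Γ} (h : γ ∈ A) (f : Linf 𝕜 Γ) : cut A f γ = f γ := by
  simp [cut, Set.indicator_of_mem h]

theorem cut_apply_notMem {A : Set Γ} {γ : Γ} (h : γ ∉ A) (f : Linf 𝕜 Γ) : cut A f γ = 0 := by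
  simp [cut, Set.indicator_of_notMem h]

theorem norm_cut_le (A : Set Γ) (f : Linf 𝕜 Γ) : ‖cut A f‖ ≤ ‖f‖ := by
  refine lp.norm_le_of_forall_le (norm_nonneg _) fun γ => ?_
  by_cases h : γ ∈ A
  · rw [cut_apply_mem h]; exact apply_le f γ
  · rw [cut_apply_notMem h]; simp

theorem cut_add_compl (A : Set Γ) (f : Linf 𝕜 Γ) : cut A f + cut Aᶜ f = f := by
  ext γ
  rw [lp.coeFn_add, Pi.add_apply]
  by_cases h : γ ∈ A
  · rw [cut_apply_mem h, cut_apply_notMem (by simpa using h), add_zero]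
  · rw [cut_apply_notMem h, cut_apply_mem (by simpa using h), zero_add]

/-- The semivariation of an operator on a set. -/
def V (L : Linf 𝕜 Γ →L[𝕜] Y) (A : Set Γ) : ℝ :=
  sSup ((fun f => ‖L f‖) '' {f | ‖f‖ ≤ 1 ∧ ∀ γ ∉ A, f γ = 0})

theorem V_bdd (L : Linf 𝕜 Γ →L[𝕜] Y) (A : Set Γ) :
    BddAbove ((fun f => ‖L f‖) '' {f | ‖f‖ ≤ 1 ∧ ∀ γ ∉ A, f γ = 0}) := by
  refine ⟨‖L‖, ?_⟩
  rintro _ ⟨f, hf, rfl⟩
  exact L.unit_le_opNorm f hf.1

theorem V_ne (L : Linf 𝕜 Γ →L[𝕜] Y) (A : Set Γ) :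
    ((fun f => ‖L f‖) '' {f | ‖f‖ ≤ 1 ∧ ∀ γ ∉ A, f γ = 0}).Nonempty :=
  ⟨_, 0, ⟨by simp, fun γ _ => by simp⟩, rfl⟩

theorem le_V (L : Linf 𝕜 Γ →L[𝕜] Y) {A : Set Γ} {f : Linf 𝕜 Γ} (h1 : ‖f‖ ≤ 1)
    (h2 : ∀ γ ∉ A, f γ = 0) : ‖L f‖ ≤ V L A :=
  le_csSup (V_bdd L A) ⟨f, ⟨h1, h2⟩, rfl⟩

theorem V_le (L : Linf 𝕜 Γ →L[𝕜] Y) {A : Set Γ} {c : ℝ}
    (h : ∀ f : Linf 𝕜 Γ, ‖f‖ ≤ 1 → (∀ γ ∉ A, f γ = 0) → ‖L f‖ ≤ c) : V L A ≤ c := by
  refine csSup_le (V_ne L A) ?_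
  rintro _ ⟨f, hf, rfl⟩
  exact h f hf.1 hf.2

theorem exists_lt_V (L : Linf 𝕜 Γ →L[𝕜] Y) {A : Set Γ} {c : ℝ} (h : c < V L A) :
    ∃ f : Linf 𝕜 Γ, ‖f‖ ≤ 1 ∧ (∀ γ ∉ A, f γ = 0) ∧ c < ‖L f‖ := by
  obtain ⟨_, ⟨f, hf, rfl⟩, hlt⟩ := exists_lt_of_lt_csSup (V_ne L A) h
  exact ⟨f, hf.1, hf.2, hlt⟩

theorem V_mono (L : Linf 𝕜 Γ →L[𝕜] Y) {A B : Set Γ} (h : A ⊆ B) : V L A ≤ V L B :=
  V_le L fun _ hf hA => le_V L hf fun γ hγ => hA γ fun h' => hγ (h h')

theorem V_nonneg (L : Linf 𝕜 Γ →L[𝕜] Y) (A : Set Γ) : 0 ≤ V L A :=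
  (norm_nonneg _).trans (le_V L (f := 0) (by simp) (fun γ _ => by simp))

theorem V_union_le (L : Linf 𝕜 Γ →L[𝕜] Y) (A B : Set Γ) : V L (A ∪ B) ≤ V L A + V L B := by
  refine V_le L fun f hf hs => ?_
  rw [← cut_add_compl A f, map_add]
  refine (norm_add_le _ _).trans (add_le_add ?_ ?_)
  · exact le_V L ((norm_cut_le A f).trans hf) fun γ hγ => cut_apply_notMem hγ f
  · refine le_V L ((norm_cut_le _ f).trans hf) fun γ hγ => ?_
    by_cases h : γ ∈ A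
    · exact cut_apply_notMem (by simpa using h) f
    · rw [cut_apply_mem (by simpa using h)]
      exact hs γ (by simp [h, hγ])

theorem V_empty (L : Linf 𝕜 Γ →L[𝕜] Y) : V L ∅ = 0 := by
  refine le_antisymm (V_le L fun f _ hs => ?_) (V_nonneg L _)
  have : f = 0 := by
    ext γ
    simpa using hs γ (by simp)
  simp [this]

theorem V_biUnion_le (L : Linf 𝕜 Γ →L[𝕜] Y) (s : Finset ℕ) (A : ℕ → Set Γ) :
    V L (⋃ i ∈ s, A i) ≤ ∑ i ∈ s, V L (A i) := by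
  classical
  induction s using Finset.induction_on with
  | empty => simp [V_empty]
  | insert a s ha ih =>
    rw [Finset.set_biUnion_insert, Finset.sum_insert ha]
    exact (V_union_le L _ _).trans (by linarith)

/-- Disjointly supported norm-one functions are weakly null. -/
theorem weaklyNull_of_disjoint {A : ℕ → Set Γ} (hd : ∀ i j, i ≠ j → Disjoint (A i) (A j))
    {f : ℕ → Linf 𝕜 Γ} (hf : ∀ n, ‖f n‖ ≤ 1) (hs : ∀ n, ∀ γ ∉ A n, f n γ = 0)
    (φ : StrongDual 𝕜 (Linf 𝕜 Γ)) : Tendsto (fun n => φ (f n)) atTop (𝓝 0) := by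
  classical
  choose c hc hc' using fun n => exists_unimod (φ (f n))
  have hsum : ∀ s : Finset ℕ, ∑ n ∈ s, ‖φ (f n)‖ ≤ ‖φ‖ := by
    intro s
    have e : φ (∑ n ∈ s, c n • f n) = ((∑ n ∈ s, ‖φ (f n)‖ : ℝ) : 𝕜) := by
      rw [map_sum]
      push_cast
      refine Finset.sum_congr rfl fun n _ => ?_
      rw [map_smul, smul_eq_mul, hc']
    have hn : ‖∑ n ∈ s, c n • f n‖ ≤ 1 := by
      refine lp.norm_le_of_forall_le zero_le_one fun γ => ?_
      have ev : (∑ n ∈ s, c n • f n : Linf 𝕜 Γ) γ = ∑ n ∈ s, c n * f n γ := by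
        rw [lp.coeFn_sum]
        simp [lp.coeFn_smul]
      rw [ev]
      by_cases h : ∃ n ∈ s, γ ∈ A n
      · obtain ⟨n, hn, hγ⟩ := h
        rw [Finset.sum_eq_single n]
        · rw [norm_mul, hc, one_mul]
          exact (apply_le _ _).trans (hf n)
        · intro m _ hmn
          rw [hs m γ (fun h' => Set.disjoint_left.1 (hd m n hmn) h' hγ), mul_zero]
        · intro h; exact absurd hn h
      · push Not at h
        rw [Finset.sum_eq_zero]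
        · simp
        · intro m hm
          rw [hs m γ (h m hm), mul_zero]
    have h1 : ‖φ (∑ n ∈ s, c n • f n)‖ ≤ ‖φ‖ := φ.unit_le_opNorm _ hn
    rw [e, RCLike.norm_ofReal, abs_of_nonneg (Finset.sum_nonneg fun _ _ => norm_nonneg _)] at h1
    exact h1
  have hS : Summable fun n => ‖φ (f n)‖ :=
    summable_of_sum_le (fun n => norm_nonneg _) hsum
  exact tendsto_zero_iff_norm_tendsto_zero.2 hS.tendsto_atTop_zero

theorem exh {T : Linf 𝕜 Γ →L[𝕜] Y} (hT : CompletelyContinuous T) (A : ℕ → Set Γ)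
    (hd : ∀ i j, i ≠ j → Disjoint (A i) (A j)) (ε : ℝ) (hε : 0 < ε) :
    ∃ n, V T (A n) ≤ ε := by
  by_contra h
  push Not at h
  choose f hf hs hlt using fun n => exists_lt_V T (h n)
  have h0 := (tendsto_zero_of_cc hT (weaklyNull_of_disjoint hd hf hs)).norm
  rw [norm_zero] at h0
  obtain ⟨n, hn⟩ := (h0.eventually (gt_mem_nhds hε)).exists
  exact absurd hn (not_lt.2 (hlt n).le)

theorem inc {T : Linf 𝕜 Γ →L[𝕜] Y} (hT : CompletelyContinuous T) (U : ℕ → Set Γ)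
    (hU : Monotone U) (ε : ℝ) (hε : 0 < ε) :
    ∃ k, ∀ k', k ≤ k' → V T (U k' \ U k) ≤ ε := by
  by_contra h
  push Not at h
  choose nx hnx hV using h
  let k : ℕ → ℕ := fun i => nx^[i] 0
  have hk : ∀ i, k (i + 1) = nx (k i) := fun i => Function.iterate_succ_apply' nx i 0
  have hkm : Monotone k := monotone_nat_of_le_succ fun i => by rw [hk]; exact hnx _
  obtain ⟨i, hi⟩ := exh hT (fun i => U (k (i + 1)) \ U (k i)) (by
    have key : ∀ i j, i < j → Disjoint (U (k (i + 1)) \ U (k i)) (U (k (j + 1)) \ U (k j)) := by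
      intro i j hij
      rw [Set.disjoint_left]
      intro γ h1 h2
      exact h2.2 (hU (hkm (by omega : i + 1 ≤ j)) h1.1)
    intro i j hij
    rcases lt_or_gt_of_ne hij with h | h
    · exact key i j h
    · exact (key j i h).symm) ε hε
  have := hV (k i)
  rw [← hk] at this
  exact absurd hi (not_le.2 this)

theorem dec {T : Linf 𝕜 Γ →L[𝕜] Y} (hT : CompletelyContinuous T) (W : ℕ → Set Γ)
    (hW : Antitone W) (ε : ℝ) (hε : 0 < ε) :
    ∃ k, ∀ k', k ≤ k' → V T (W k \ W k') ≤ ε := by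
  obtain ⟨k, hk⟩ := inc hT (fun n => (W n)ᶜ) (fun i j h => Set.compl_subset_compl.2 (hW h)) ε hε
  refine ⟨k, fun k' hk' => ?_⟩
  have e : W k \ W k' = (W k')ᶜ \ (W k)ᶜ := by
    ext γ; simp [and_comm]
  rw [e]
  exact hk k' hk'

end Pool.Agent.X146.RD
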