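import Pool.Agent.X146.RD.Linf

/-!
# Square-summable sums of Banach spaces
-/

noncomputable section

open Metric Filter NormedSpace
open scoped ENNReal NNReal Topology

namespace Pool.Agent.X146.RD

universe u v

variable {𝕜 : Type} [RCLike 𝕜]
variable {E : ℕ → Type u} [∀ n, NormedAddCommGroup (E n)] [∀ n, NormedSpace 𝕜 (E n)]
variable {Y : Type v} [NormedAddCommGroup Y] [NormedSpace 𝕜 Y]

theorem l2_norm_sq (x : lp E 2) : ‖x‖ ^ 2 = ∑' n, ‖x n‖ ^ 2 := by
  have := lp.norm_rpow_eq_tsum (p := 2) (by simp) x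
  simpa using this

theorem l2_summable (x : lp E 2) : Summable fun n => ‖x n‖ ^ 2 := by
  have := (lp.memℓp x).summable (by simp)
  simpa using this

theorem l2_add {x y : lp E 2} {N : ℕ} (hx : ∀ n, N ≤ n → x n = 0) (hy : ∀ n, n < N → y n = 0) :
    ‖x + y‖ ^ 2 = ‖x‖ ^ 2 + ‖y‖ ^ 2 := by
  rw [l2_norm_sq, l2_norm_sq, l2_norm_sq, ← (l2_summable x).tsum_add (l2_summable y)]
  refine tsum_congr fun n => ?_
  rw [lp.coeFn_add, Pi.add_apply]
  rcases lt_or_ge n N with h | h
  · rw [hy n h]; simp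
  · rw [hx n h]; simp

theorem sum_single_apply (s : Finset ℕ) (x : lp E 2) (m : ℕ) :
    (∑ n ∈ s, lp.single 2 n (x n) : lp E 2) m = if m ∈ s then x m else 0 := by
  classical
  rw [lp.coeFn_sum, Finset.sum_apply]
  split_ifs with h
  · rw [Finset.sum_eq_single m]
    · exact lp.single_apply_self 2 m (x m)
    · intro b _ hb
      exact lp.single_apply_ne 2 b (x b) (Ne.symm hb)
    · intro h'; exact absurd h h'
  · refine Finset.sum_eq_zero fun b hb => ?_
    refine lp.single_apply_ne 2 b (x b) ?_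
    rintro rfl
    exact h hb

theorem norm_sum_single_le (s : Finset ℕ) (x : lp E 2) :
    ‖(∑ n ∈ s, lp.single 2 n (x n) : lp E 2)‖ ≤ ‖x‖ := by
  have h1 := l2_norm_sq (∑ n ∈ s, lp.single 2 n (x n) : lp E 2)
  have h2 := l2_norm_sq x
  have h3 : ∑' n, ‖(∑ n ∈ s, lp.single 2 n (x n) : lp E 2) n‖ ^ 2 ≤ ∑' n, ‖x n‖ ^ 2 := by
    refine (l2_summable _).tsum_le_tsum (fun n => ?_) (l2_summable x)
    rw [sum_single_apply]
    split_ifs
    · exact le_rfl
    · simp
  have h4 := norm_nonneg (∑ n ∈ s, lp.single 2 n (x n) : lp E 2)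
  have h5 := norm_nonneg x
  nlinarith

/-- Block sequences are weakly null. -/
theorem blocks_null {z : ℕ → lp E 2} {N : ℕ → ℕ} (hN : Monotone N) (hz1 : ∀ i, ‖z i‖ ≤ 1)
    (hz2 : ∀ i n, n < N i → z i n = 0) (hz3 : ∀ i n, N (i + 1) ≤ n → z i n = 0)
    (φ : StrongDual 𝕜 (lp E 2)) : Tendsto (fun i => φ (z i)) atTop (𝓝 0) := by
  set c : ℕ → 𝕜 := fun i => (starRingEnd 𝕜) (φ (z i)) with hc
  have hw : ∀ K : ℕ, ‖∑ i ∈ Finset.range K, c i • z i‖ ^ 2 ≤ ∑ i ∈ Finset.range K, ‖φ (z i)‖ ^ 2 ∧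
      ∀ n, N K ≤ n → (∑ i ∈ Finset.range K, c i • z i : lp E 2) n = 0 := by
    intro K
    induction K with
    | zero => simp
    | succ K ih =>
      refine ⟨?_, ?_⟩
      · rw [Finset.sum_range_succ, Finset.sum_range_succ, l2_add (N := N K) ih.2]
        · have h1 : ‖c K • z K‖ ≤ ‖φ (z K)‖ := by
            rw [norm_smul, hc, RCLike.norm_conj]
            have := hz1 K
            nlinarith [norm_nonneg (φ (z K))]
          have h2 : ‖c K • z K‖ ^ 2 ≤ ‖φ (z K)‖ ^ 2 := by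
            have := norm_nonneg (c K • z K)
            nlinarith
          linarith [ih.1]
        · intro n hn
          rw [lp.coeFn_smul, Pi.smul_apply, hz2 K n hn, smul_zero]
      · intro n hn
        rw [Finset.sum_range_succ, lp.coeFn_add, Pi.add_apply, lp.coeFn_smul, Pi.smul_apply,
          hz3 K n hn, smul_zero, add_zero]
        exact ih.2 n ((hN (Nat.le_succ K)).trans hn)
  have hsum : ∀ K : ℕ, ∑ i ∈ Finset.range K, ‖φ (z i)‖ ^ 2 ≤ ‖φ‖ ^ 2 := by
    intro K
    set S := ∑ i ∈ Finset.range K, ‖φ (z i)‖ ^ 2 with hS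
    have hS0 : 0 ≤ S := Finset.sum_nonneg fun _ _ => by positivity
    have e : φ (∑ i ∈ Finset.range K, c i • z i) = ((S : ℝ) : 𝕜) := by
      rw [map_sum, hS]
      push_cast
      refine Finset.sum_congr rfl fun i _ => ?_
      rw [map_smul, smul_eq_mul, hc, RCLike.conj_mul]
    have h1 := φ.le_opNorm (∑ i ∈ Finset.range K, c i • z i)
    rw [e, RCLike.norm_ofReal, abs_of_nonneg hS0] at h1
    have h2 := (hw K).1
    rw [← hS] at h2
    have h3 := norm_nonneg (∑ i ∈ Finset.range K, c i • z i)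
    have h4 := norm_nonneg φ
    by_contra hcon
    push Not at hcon
    have h5 : S ^ 2 ≤ ‖φ‖ ^ 2 * S := by
      calc S ^ 2 ≤ (‖φ‖ * ‖∑ i ∈ Finset.range K, c i • z i‖) ^ 2 := by gcongr
        _ = ‖φ‖ ^ 2 * ‖∑ i ∈ Finset.range K, c i • z i‖ ^ 2 := by ring
        _ ≤ ‖φ‖ ^ 2 * S := by gcongr
    have h6 : 0 < S := lt_of_le_of_lt (by positivity) hcon
    nlinarith
  have hSm : Summable fun i => ‖φ (z i)‖ ^ 2 :=
    summable_of_sum_range_le (fun i => by positivity) hsum
  have h0 := hSm.tendsto_atTop_zero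
  rw [tendsto_zero_iff_norm_tendsto_zero]
  have h1 := h0.sqrt
  simpa using h1

theorem tail {T : lp E 2 →L[𝕜] Y} (hT : CompletelyContinuous T) (ε : ℝ) (hε : 0 < ε) :
    ∃ N : ℕ, ∀ x : lp E 2, ‖x‖ ≤ 1 →
      ‖T x - T (∑ n ∈ Finset.range N, lp.single 2 n (x n))‖ ≤ ε := by
  by_contra hcon
  push Not at hcon
  have step : ∀ N : ℕ, ∃ (M : ℕ) (x : lp E 2), N ≤ M ∧ ‖x‖ ≤ 1 ∧
      ε < ‖T (∑ n ∈ Finset.Ico N M, lp.single 2 n (x n))‖ := by
    intro N
    obtain ⟨x, hx, hlt⟩ := hcon N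
    have hs := (lp.hasSum_single (p := 2) (by simp) x).tendsto_sum_nat
    have h1 : Tendsto (fun M => ‖T (∑ n ∈ Finset.range M, lp.single 2 n (x n)) -
        T (∑ n ∈ Finset.range N, lp.single 2 n (x n))‖) atTop
        (𝓝 ‖T x - T (∑ n ∈ Finset.range N, lp.single 2 n (x n))‖) :=
      (((T.continuous.tendsto x).comp hs).sub tendsto_const_nhds).norm
    obtain ⟨M, hM1, hM2⟩ := ((h1.eventually (lt_mem_nhds hlt)).and (eventually_ge_atTop N)).exists
    refine ⟨M, x, hM2, hx, ?_⟩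
    have e : ∑ n ∈ Finset.Ico N M, lp.single 2 n (x n) =
        ∑ n ∈ Finset.range M, lp.single (E := E) 2 n (x n) - ∑ n ∈ Finset.range N, lp.single 2 n (x n) :=
      Finset.sum_Ico_eq_sub _ hM2
    rw [e, map_sub]
    exact hM1
  choose M x hM hx hlt using step
  let N : ℕ → ℕ := fun i => M^[i] 0
  have hN : ∀ i, N (i + 1) = M (N i) := fun i => Function.iterate_succ_apply' M i 0
  have hNm : Monotone N := monotone_nat_of_le_succ fun i => by rw [hN]; exact hM _
  set z : ℕ → lp E 2 := fun i => ∑ n ∈ Finset.Ico (N i) (N (i + 1)), lp.single 2 n (x (N i) n)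
    with hz
  have h0 := tendsto_zero_of_cc hT (blocks_null (z := z) (N := N) (𝕜 := 𝕜) hNm
    (fun i => (norm_sum_single_le _ _).trans (hx _))
    (fun i n hn => by
      rw [hz]; simp only
      rw [sum_single_apply, if_neg]
      rw [Finset.mem_Ico]; omega)
    (fun i n hn => by
      rw [hz]; simp only
      rw [sum_single_apply, if_neg]
      rw [Finset.mem_Ico]; omega))
  have h1 := h0.norm
  rw [norm_zero] at h1
  obtain ⟨i, hi⟩ := (h1.eventually (gt_mem_nhds hε)).exists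
  have h2 := hlt (N i)
  rw [← hN] at h2
  exact absurd hi (not_lt.2 h2.le)

theorem exists_pos_le (δ : ℕ → ℝ) (h : ∀ n, 0 < δ n) (N : ℕ) :
    ∃ δ' : ℝ, 0 < δ' ∧ ∀ n < N, δ' ≤ δ n := by
  induction N with
  | zero => exact ⟨1, one_pos, fun n hn => absurd hn (Nat.not_lt_zero n)⟩
  | succ N ih =>
    obtain ⟨d, hd, hle⟩ := ih
    refine ⟨min d (δ N), lt_min hd (h N), fun n hn => ?_⟩
    rcases Nat.lt_succ_iff_lt_or_eq.1 hn with h' | rfl
    · exact (min_le_left _ _).trans (hle n h')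
    · exact min_le_right _ _

/-- If completely continuous operators on every summand satisfy `HApprox`, so do those on the
square-summable sum. -/
theorem hApprox_sum (hE : ∀ (n : ℕ) (S : E n →L[𝕜] Y), CompletelyContinuous S → HApprox S)
    {T : lp E 2 →L[𝕜] Y} (hT : CompletelyContinuous T) : HApprox T := by
  classical
  intro ε hε
  obtain ⟨N, hN⟩ := tail hT (ε / 4) (by positivity)
  have hcc : ∀ n, CompletelyContinuous
      (T.comp (lp.singleContinuousLinearMap 𝕜 E 2 n)) := by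
    intro n z hz
    exact hT (fun k => lp.singleContinuousLinearMap 𝕜 E 2 n (z k))
      fun φ => hz (φ.comp (lp.singleContinuousLinearMap 𝕜 E 2 n))
  have hall := fun n => hE n _ (hcc n) (ε / (2 * ((N : ℝ) + 1))) (by positivity)
  choose q hq0 hqM hpar δ hδ hq using hall
  choose M hM using hqM
  obtain ⟨δ', hδ', hle⟩ := exists_pos_le δ hδ N
  have hap : ∀ (x : lp E 2) (n : ℕ), ‖x‖ ≤ 1 → ‖x n‖ ≤ 1 := fun x n hx =>
    (lp.norm_apply_le_norm (by simp) x n).trans hx
  refine ⟨fun x => ∑ n ∈ Finset.range N, q n (x n), fun x => Finset.sum_nonneg fun n _ => hq0 n _,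
    ⟨∑ n ∈ Finset.range N, M n, fun x hx => Finset.sum_le_sum fun n _ => hM n _ (hap x n hx)⟩,
    ?_, δ', hδ', ?_⟩
  · intro f g hf hg
    simp only [Finset.mul_sum]
    rw [← Finset.sum_add_distrib, ← Finset.sum_add_distrib]
    refine Finset.sum_le_sum fun n _ => ?_
    exact hpar n (f n) (g n) (hap f n hf) (hap g n hg)
  · intro f g hf hg hfg
    have hcoord : ∀ n ∈ Finset.range N,
        ‖T (lp.single 2 n (f n)) - T (lp.single 2 n (g n))‖ ≤ ε / (2 * ((N : ℝ) + 1)) := by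
      intro n hn
      refine hq n (f n) (g n) (hap f n hf) (hap g n hg) ?_
      have h1 : q n ((f - g : lp E 2) n) ≤ ∑ n ∈ Finset.range N, q n ((f - g : lp E 2) n) :=
        Finset.single_le_sum (f := fun n => q n ((f - g : lp E 2) n)) (fun m _ => hq0 m _) hn
      exact (h1.trans hfg).trans (hle n (Finset.mem_range.1 hn))
    have hmid : ‖T (∑ n ∈ Finset.range N, lp.single 2 n (f n)) -
        T (∑ n ∈ Finset.range N, lp.single 2 n (g n))‖ ≤ ε / 2 := by
      rw [map_sum, map_sum, ← Finset.sum_sub_distrib]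
      refine (norm_sum_le _ _).trans ((Finset.sum_le_sum hcoord).trans ?_)
      rw [Finset.sum_const, Finset.card_range, nsmul_eq_mul]
      have h1 : (N : ℝ) * (ε / (2 * ((N : ℝ) + 1))) = ε / 2 * ((N : ℝ) / ((N : ℝ) + 1)) := by
        field_simp
      rw [h1]
      have h2 : (N : ℝ) / ((N : ℝ) + 1) ≤ 1 := by
        rw [div_le_one (by positivity)]; linarith
      nlinarith
    have hf' := hN f hf
    have hg' := hN g hg
    set Pf := T (∑ n ∈ Finset.range N, lp.single 2 n (f n)) with hPf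
    set Pg := T (∑ n ∈ Finset.range N, lp.single 2 n (g n)) with hPg
    have e : T f - T g = (T f - Pf) + (Pf - Pg) - (T g - Pg) := by abel
    rw [e]
    have h1 := norm_sub_le ((T f - Pf) + (Pf - Pg)) (T g - Pg)
    have h2 := norm_add_le (T f - Pf) (Pf - Pg)
    linarith

end Pool.Agent.X146.RD
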