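import Pool.Agent.X146.RD.Space
import Pool.Agent.X146.RD.Sum
import Mathlib.Order.Filter.Ultrafilter.Basic

/-!
# A Banach space with the reciprocal Dunford-Pettis property but without its quantitative version
-/

noncomputable section

open Metric Filter NormedSpace
open scoped ENNReal NNReal Topology

namespace Pool.Agent.X146.RD

universe u v

variable (𝕜 : Type) [RCLike 𝕜]

/-- The square-summable sum of the renormed spaces. -/
abbrev XX := lp (fun n : ℕ => Xn 𝕜 n) 2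

theorem rdpp_XX : RDPP.{0, v} 𝕜 (XX 𝕜) := by
  intro Y _ _ _ T hT
  exact weaklyCompact_of_hApprox T (hApprox_sum (fun n S hS => hApprox_Xn n hS) hT)

/-- The operator `Tn` composed with the coordinate projection. -/
def Sn (n : ℕ) : XX 𝕜 →L[𝕜] Linf 𝕜 Sgn :=
  (Tn 𝕜 n).comp (lp.evalCLM 𝕜 (fun n : ℕ => Xn 𝕜 n) 2 n)

variable {𝕜}

theorem Sn_apply (n : ℕ) (x : XX 𝕜) : Sn 𝕜 n x = Tn 𝕜 n (x n) := rfl

theorem exists_tail_small (n : ℕ) (x : ℕ → XX 𝕜) (hx : WeaklyCauchy 𝕜 x) (hx1 : ∀ k, ‖x k‖ ≤ 1) :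
    ∃ N : ℕ, ∀ k, N ≤ k → ∀ l, N ≤ l → ‖Sn 𝕜 n (x k) - Sn 𝕜 n (x l)‖ ≤ 24 * rc n := by
  have hrc := rc_pos n
  have hrep : ∀ k, ∃ p : L1 𝕜 × Linf 𝕜 Sgn, (Submodule.Quotient.mk p : Xn 𝕜 n) = x k n ∧
      ‖p‖ ≤ 2 := by
    intro k
    obtain ⟨p, hp, hlt⟩ := Submodule.Quotient.norm_mk_lt (x k n) (ε := 1) one_pos
    refine ⟨p, hp, ?_⟩
    have h1 : ‖x k n‖ ≤ ‖x k‖ := lp.norm_apply_le_norm (by simp) (x k) n
    have := hx1 k
    linarith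
  choose p hp hp2 using hrep
  have hS : ∀ k, Sn 𝕜 n (x k) = J 𝕜 (p k).1 + (rc n : 𝕜) • (p k).2 := by
    intro k
    rw [Sn_apply, ← hp k, Tn_mk, Q_apply]
  by_contra hcon
  push Not at hcon
  choose k hk l hl hlt using hcon
  have hdiff : ∀ N, Sn 𝕜 n (x (k N)) - Sn 𝕜 n (x (l N)) =
      J 𝕜 ((p (k N)).1 - (p (l N)).1) + (rc n : 𝕜) • ((p (k N)).2 - (p (l N)).2) := by
    intro N
    rw [hS, hS, map_sub, smul_sub]; abel
  have hb : ∀ N, ‖(rc n : 𝕜) • ((p (k N)).2 - (p (l N)).2)‖ ≤ 4 * rc n := by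
    intro N
    rw [norm_smul, norm_rc]
    have h1 := norm_sub_le (p (k N)).2 (p (l N)).2
    have h2 := (norm_snd_le (p (k N))).trans (hp2 _)
    have h3 := (norm_snd_le (p (l N))).trans (hp2 _)
    nlinarith
  have hsch := schur (𝕜 := 𝕜) (fun N => (⇑((p (k N)).1 - (p (l N)).1) : ℕ → 𝕜))
    (fun N => l1_summable _) (5 * rc n) (by
    intro ε
    have hc : CauchySeq fun m => Sn 𝕜 n (x m) ε :=
      hx ((lp.evalCLM 𝕜 (fun _ : Sgn => 𝕜) ∞ ε).comp (Sn 𝕜 n))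
    obtain ⟨N₀, hN₀⟩ := Metric.cauchySeq_iff.1 hc (rc n) hrc
    filter_upwards [eventually_ge_atTop N₀] with N hN
    have h1 := hN₀ (k N) (hN.trans (hk N)) (l N) (hN.trans (hl N))
    rw [dist_eq_norm] at h1
    have h2 : pr ε (⇑((p (k N)).1 - (p (l N)).1) : ℕ → 𝕜) =
        (Sn 𝕜 n (x (k N)) ε - Sn 𝕜 n (x (l N)) ε) -
          ((rc n : 𝕜) • ((p (k N)).2 - (p (l N)).2) : Linf 𝕜 Sgn) ε := by
      have h3 := congrArg (fun f : Linf 𝕜 Sgn => f ε) (hdiff N)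
      simp only [lp.coeFn_sub, lp.coeFn_add, Pi.sub_apply, Pi.add_apply] at h3
      rw [h3, J_apply]
      simp only [lp.coeFn_sub, add_sub_cancel_right]
    rw [h2]
    have h4 := norm_sub_le (Sn 𝕜 n (x (k N)) ε - Sn 𝕜 n (x (l N)) ε)
      (((rc n : 𝕜) • ((p (k N)).2 - (p (l N)).2) : Linf 𝕜 Sgn) ε)
    have h5 := (apply_le ((rc n : 𝕜) • ((p (k N)).2 - (p (l N)).2) : Linf 𝕜 Sgn) ε).trans (hb N)
    linarith)
  obtain ⟨N, hN⟩ := hsch.exists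
  rw [← l1_norm] at hN
  have h1 := hlt N
  rw [hdiff N] at h1
  have h2 := norm_add_le (J 𝕜 ((p (k N)).1 - (p (l N)).1))
    ((rc n : 𝕜) • ((p (k N)).2 - (p (l N)).2))
  have h3 := norm_J_le ((p (k N)).1 - (p (l N)).1)
  have h4 := hb N
  linarith

theorem cc_Sn_le (n : ℕ) : ccOp (Sn 𝕜 n) ≤ ENNReal.ofReal (24 * rc n) := by
  unfold ccOp
  refine iSup_le fun x => iSup_le fun hx => iSup_le fun hx1 => ?_
  obtain ⟨N, hN⟩ := exists_tail_small n x hx hx1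
  unfold ca
  refine (iInf_le _ N).trans ?_
  refine iSup_le fun k => iSup_le fun l => iSup_le fun hk => iSup_le fun hl => ?_
  exact ENNReal.ofReal_le_ofReal (hN k hk l hl)

/-- Evaluation at a sign sequence. -/
def ev (𝕜 : Type) [RCLike 𝕜] (ε : Sgn) : StrongDual 𝕜 (Linf 𝕜 Sgn) :=
  lp.evalCLM 𝕜 (fun _ : Sgn => 𝕜) ∞ ε

theorem ev_apply (ε : Sgn) (f : Linf 𝕜 Sgn) : ev 𝕜 ε f = f ε := rfl

theorem norm_ev_le (ε : Sgn) : ‖ev 𝕜 ε‖ ≤ 1 :=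
  ContinuousLinearMap.opNorm_le_bound _ zero_le_one fun f => by
    rw [ev_apply, one_mul]; exact apply_le f ε

/-- The images of the unit vectors. -/
def rad (𝕜 : Type) [RCLike 𝕜] (i : ℕ) : Linf 𝕜 Sgn := J 𝕜 (lp.single 1 i (1 : 𝕜))

theorem rad_apply (i : ℕ) (ε : Sgn) : rad 𝕜 i ε = sg 𝕜 (ε i) := by
  unfold rad
  rw [J_apply]
  unfold pr
  rw [tsum_eq_single i]
  · rw [lp.single_apply_self, mul_one]
  · intro j hj
    exact mul_eq_zero_of_right _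
      (lp.single_apply_ne (E := fun _ : ℕ => 𝕜) 1 i (1 : 𝕜) hj)

theorem norm_rad_le (i : ℕ) : ‖rad 𝕜 i‖ ≤ 1 := by
  refine lp.norm_le_of_forall_le zero_le_one fun ε => ?_
  rw [rad_apply, norm_sg]

theorem rad_mem (n i : ℕ) : rad 𝕜 i ∈ Sn 𝕜 n '' closedBall 0 1 := by
  refine ⟨lp.single 2 n (Submodule.Quotient.mk ((lp.single 1 i (1 : 𝕜), 0) : L1 𝕜 × Linf 𝕜 Sgn)),
    ?_, ?_⟩
  · rw [mem_closedBall_zero_iff, lp.norm_single (by simp)]
    refine (Submodule.Quotient.norm_mk_le (S := Kn 𝕜 n)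
      ((lp.single 1 i (1 : 𝕜), 0) : L1 𝕜 × Linf 𝕜 Sgn)).trans ?_
    rw [Prod.norm_def, lp.norm_single (by simp)]
    simp
  · rw [Sn_apply, lp.single_apply_self, Tn_mk, Q_apply]
    simp [rad]

theorem one_le_wk (n : ℕ) : 1 ≤ wkOp (Sn 𝕜 n) := by
  classical
  set U : Ultrafilter ℕ := Filter.hyperfilter ℕ with hU
  have hUatTop : (U : Filter ℕ) ≤ atTop := by
    rw [← Nat.cofinite_eq_atTop]
    exact Filter.hyperfilter_le_cofinite
  -- first limit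
  set b : ℕ → WeakDual 𝕜 (StrongDual 𝕜 (Linf 𝕜 Sgn)) := fun i =>
    inclusionInDoubleDualWeak 𝕜 (Linf 𝕜 Sgn) (toWeakSpace 𝕜 (Linf 𝕜 Sgn) (rad 𝕜 i)) with hb
  have hbapp : ∀ i φ, b i φ = φ (rad 𝕜 i) := fun i φ => rfl
  obtain ⟨a, -, ha⟩ := (WeakDual.isCompact_closedBall (𝕜 := 𝕜)
    (0 : StrongDual 𝕜 (StrongDual 𝕜 (Linf 𝕜 Sgn))) 1).ultrafilter_le_nhds (U.map b) (by
      rw [Filter.le_principal_iff, Ultrafilter.mem_coe, Ultrafilter.mem_map]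
      refine Filter.univ_mem' fun i => ?_
      refine mem_closedBall_zero_iff.2 ?_
      refine ContinuousLinearMap.opNorm_le_bound _ zero_le_one fun φ => ?_
      rw [WeakDual.toStrongDual_apply, hbapp, one_mul]
      have h1 := φ.le_opNorm (rad 𝕜 i)
      have h2 := norm_rad_le (𝕜 := 𝕜) i
      nlinarith [norm_nonneg φ])
  have hta : Tendsto b U (𝓝 a) := ha
  have htaφ : ∀ φ : StrongDual 𝕜 (Linf 𝕜 Sgn), Tendsto (fun i => φ (rad 𝕜 i)) U (𝓝 (a φ)) :=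
    fun φ => ((WeakDual.eval_continuous φ).tendsto a).comp hta
  have hacl : a ∈ closure (inclusionInDoubleDualWeak 𝕜 (Linf 𝕜 Sgn) ''
      (toWeakSpace 𝕜 (Linf 𝕜 Sgn) '' (Sn 𝕜 n '' closedBall 0 1))) :=
    mem_closure_of_tendsto hta (Eventually.of_forall fun i =>
      ⟨_, ⟨_, rad_mem n i, rfl⟩, rfl⟩)
  -- the functionals
  set ε : ℕ → Sgn := fun m i => decide (i ≤ m) with hε
  set c : ℕ → WeakDual 𝕜 (Linf 𝕜 Sgn) := fun m => StrongDual.toWeakDual (ev 𝕜 (ε m)) with hc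
  obtain ⟨ψ, hψ, hcψ⟩ := (WeakDual.isCompact_closedBall (𝕜 := 𝕜)
    (0 : StrongDual 𝕜 (Linf 𝕜 Sgn)) 1).ultrafilter_le_nhds (U.map c) (by
      rw [Filter.le_principal_iff, Ultrafilter.mem_coe, Ultrafilter.mem_map]
      refine Filter.univ_mem' fun m => ?_
      exact mem_closedBall_zero_iff.2 (norm_ev_le _))
  have htc : Tendsto c U (𝓝 ψ) := hcψ
  have htcf : ∀ f : Linf 𝕜 Sgn, Tendsto (fun m => f (ε m)) U (𝓝 (ψ f)) := fun f =>
    ((WeakDual.eval_continuous f).tendsto ψ).comp htc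
  set φ : StrongDual 𝕜 (Linf 𝕜 Sgn) := WeakDual.toStrongDual ψ with hφ
  have hφ1 : ‖φ‖ ≤ 1 := by
    have : WeakDual.toStrongDual ψ ∈ closedBall (0 : StrongDual 𝕜 (Linf 𝕜 Sgn)) 1 := hψ
    simpa using this
  have h1 : ∀ m, a (ev 𝕜 (ε m)) = -1 := by
    intro m
    have h := htaφ (ev 𝕜 (ε m))
    have h' : Tendsto (fun i => ev 𝕜 (ε m) (rad 𝕜 i)) U (𝓝 (-1)) := by
      refine Tendsto.congr' ?_ tendsto_const_nhds
      filter_upwards [hUatTop (eventually_gt_atTop m)] with i hi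
      rw [ev_apply, rad_apply]
      simp [hε, sg, not_le.2 hi]
    exact tendsto_nhds_unique h h'
  have h2 : ∀ i, φ (rad 𝕜 i) = 1 := by
    intro i
    have h := htcf (rad 𝕜 i)
    have h' : Tendsto (fun m => rad 𝕜 i (ε m)) U (𝓝 1) := by
      refine Tendsto.congr' ?_ tendsto_const_nhds
      filter_upwards [hUatTop (eventually_ge_atTop i)] with m hm
      rw [rad_apply]
      simp [hε, sg, hm]
    exact tendsto_nhds_unique h h'
  have h3 : a φ = 1 := by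
    have h := htaφ φ
    have h' : Tendsto (fun i => φ (rad 𝕜 i)) U (𝓝 1) := by
      refine Tendsto.congr (fun i => (h2 i).symm) tendsto_const_nhds
    exact tendsto_nhds_unique h h'
  have hdist : 1 ≤ infEDist (WeakDual.toStrongDual a)
      (Set.range (inclusionInDoubleDual 𝕜 (Linf 𝕜 Sgn))) := by
    rw [le_infEDist]
    rintro _ ⟨z, rfl⟩
    set A : StrongDual 𝕜 (StrongDual 𝕜 (Linf 𝕜 Sgn)) :=
      WeakDual.toStrongDual a - inclusionInDoubleDual 𝕜 (Linf 𝕜 Sgn) z with hA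
    have hAapp : ∀ θ : StrongDual 𝕜 (Linf 𝕜 Sgn), A θ = a θ - θ z := fun θ => rfl
    have h4 : ‖(1 : 𝕜) - φ z‖ ≤ ‖A‖ := by
      have := A.unit_le_opNorm φ hφ1
      rwa [hAapp, h3] at this
    have h5 : ∀ m, ‖(-1 : 𝕜) - z (ε m)‖ ≤ ‖A‖ := by
      intro m
      have := A.unit_le_opNorm (ev 𝕜 (ε m)) (norm_ev_le _)
      rwa [hAapp, h1, ev_apply] at this
    have h6 : ‖(-1 : 𝕜) - φ z‖ ≤ ‖A‖ := by
      have ht : Tendsto (fun m => ‖(-1 : 𝕜) - z (ε m)‖) U (𝓝 ‖(-1 : 𝕜) - φ z‖) :=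
        (tendsto_const_nhds.sub (htcf z)).norm
      exact le_of_tendsto ht (Eventually.of_forall h5)
    have h7 : (1 : ℝ) ≤ ‖A‖ := by
      have h8 := norm_sub_le ((1 : 𝕜) - φ z) ((-1 : 𝕜) - φ z)
      have h9 : (1 : 𝕜) - φ z - ((-1 : 𝕜) - φ z) = 2 := by ring
      rw [h9, RCLike.norm_ofNat] at h8
      linarith
    rw [edist_dist, dist_eq_norm, ← hA]
    rw [← ENNReal.ofReal_one]
    exact ENNReal.ofReal_le_ofReal h7
  unfold wkOp wkSet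
  exact hdist.trans (le_iSup₂ (f := fun (a : WeakDual 𝕜 (StrongDual 𝕜 (Linf 𝕜 Sgn)))
    (_ : a ∈ closure (inclusionInDoubleDualWeak 𝕜 (Linf 𝕜 Sgn) ''
      (toWeakSpace 𝕜 (Linf 𝕜 Sgn) '' (Sn 𝕜 n '' closedBall 0 1)))) =>
      infEDist (WeakDual.toStrongDual a)
        (Set.range (inclusionInDoubleDual 𝕜 (Linf 𝕜 Sgn)))) a hacl)

theorem ratio (C : ℝ≥0) : ∃ n : ℕ, (C : ℝ≥0∞) * ccOp (Sn 𝕜 n) < wkOp (Sn 𝕜 n) := by
  obtain ⟨n, hn⟩ := exists_nat_gt ((C : ℝ) * 24)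
  refine ⟨n, lt_of_lt_of_le ?_ (one_le_wk n)⟩
  have h1 : (C : ℝ≥0∞) * ccOp (Sn 𝕜 n) ≤ ENNReal.ofReal ((C : ℝ) * (24 * rc n)) := by
    rw [ENNReal.ofReal_mul C.coe_nonneg, ENNReal.ofReal_coe_nnreal]
    gcongr
    exact cc_Sn_le n
  refine lt_of_le_of_lt h1 ?_
  rw [← ENNReal.ofReal_one, ENNReal.ofReal_lt_ofReal_iff one_pos]
  unfold rc
  have hpos : (0 : ℝ) < (n : ℝ) + 1 := by positivity
  rw [← mul_assoc, mul_one_div, div_lt_one hpos]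
  linarith

/-- There is a Banach space with the reciprocal Dunford-Pettis property and without the
quantitative one. -/
theorem main : ∃ (X : Type) (_ : NormedAddCommGroup X) (_ : NormedSpace 𝕜 X),
    CompleteSpace X ∧ RDPP.{0, v} 𝕜 X ∧
    ∀ C : ℝ≥0, ∃ (Y : Type) (_ : NormedAddCommGroup Y) (_ : NormedSpace 𝕜 Y)
      (T : X →L[𝕜] Y), CompleteSpace Y ∧ (C : ℝ≥0∞) * ccOp T < wkOp T := by
  refine ⟨XX 𝕜, inferInstance, inferInstance, inferInstance, rdpp_XX 𝕜, fun C => ?_⟩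
  obtain ⟨n, hn⟩ := ratio (𝕜 := 𝕜) C
  exact ⟨Linf 𝕜 Sgn, inferInstance, inferInstance, Sn 𝕜 n, inferInstance, hn⟩

end Pool.Agent.X146.RD
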