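import Pool.Agent.X146.RD.Defs
import Mathlib.Topology.MetricSpace.PiNat
import Mathlib.Topology.Baire.Lemmas
import Mathlib.Topology.Baire.LocallyCompactRegular
import Mathlib.Analysis.Normed.Group.FunctionSeries
import Mathlib.Topology.Algebra.InfiniteSum.NatInt

/-!
# A quantitative Schur property of absolutely summable sequences
-/

noncomputable section

open Metric Filter
open scoped ENNReal NNReal Topology

namespace Pool.Agent.X146.RD

variable {𝕜 : Type} [RCLike 𝕜]

/-- The sign attached to a truth value. -/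
def sg (𝕜 : Type) [RCLike 𝕜] (b : Bool) : 𝕜 := if b then 1 else -1

@[simp] theorem norm_sg (b : Bool) : ‖sg 𝕜 b‖ = 1 := by
  cases b <;> simp [sg]

/-- The pairing of a sign sequence with a summable sequence. -/
def pr (ε : ℕ → Bool) (a : ℕ → 𝕜) : 𝕜 := ∑' j, sg 𝕜 (ε j) * a j

theorem summable_pr (ε : ℕ → Bool) {a : ℕ → 𝕜} (ha : Summable fun j => ‖a j‖) :
    Summable fun j => sg 𝕜 (ε j) * a j := by
  refine Summable.of_norm ?_
  simpa [norm_mul] using ha

theorem norm_pr_le (ε : ℕ → Bool) {a : ℕ → 𝕜} (ha : Summable fun j => ‖a j‖) :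
    ‖pr ε a‖ ≤ ∑' j, ‖a j‖ := by
  have h : Summable fun j => ‖sg 𝕜 (ε j) * a j‖ := by simpa [norm_mul] using ha
  refine (norm_tsum_le_tsum_norm h).trans (le_of_eq ?_)
  simp [norm_mul]

theorem continuous_pr {a : ℕ → 𝕜} (ha : Summable fun j => ‖a j‖) :
    Continuous fun ε : ℕ → Bool => pr ε a := by
  unfold pr
  refine continuous_tsum (u := fun j => ‖a j‖) (fun j => ?_) ha (fun j ε => ?_)
  · exact ((continuous_of_discreteTopology (f := sg 𝕜)).comp (continuous_apply j)).mul
      continuous_const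
  · simp [norm_mul]

theorem norm_le_re_im (z : 𝕜) : ‖z‖ ≤ |RCLike.re z| + |RCLike.im z| := by
  by_contra hcon
  push Not at hcon
  have h1 := RCLike.norm_sq_eq_def (z := z)
  have h2 := abs_nonneg (RCLike.re z)
  have h3 := abs_nonneg (RCLike.im z)
  have h4 := sq_abs (RCLike.re z)
  have h5 := sq_abs (RCLike.im z)
  nlinarith [norm_nonneg z]

/-- If all sign pairings of `b` are bounded by `η` then the absolute sum is at most `2 η`. -/
theorem tsum_le_of_signs {b : ℕ → 𝕜} (hb : Summable fun j => ‖b j‖) {η : ℝ}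
    (h : ∀ τ : ℕ → Bool, ‖pr τ b‖ ≤ η) : ∑' j, ‖b j‖ ≤ 2 * η := by
  have hre : Summable fun j => |RCLike.re (b j)| :=
    Summable.of_nonneg_of_le (fun j => abs_nonneg _) (fun j => RCLike.abs_re_le_norm _) hb
  have him : Summable fun j => |RCLike.im (b j)| :=
    Summable.of_nonneg_of_le (fun j => abs_nonneg _) (fun j => RCLike.abs_im_le_norm _) hb
  have h1 : ∑' j, |RCLike.re (b j)| ≤ η := by
    have h2 := h (fun j => decide (0 ≤ RCLike.re (b j)))
    have h3 := (RCLike.re_le_norm (pr (fun j => decide (0 ≤ RCLike.re (b j))) b)).trans h2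
    refine le_trans (le_of_eq ?_) h3
    unfold pr
    rw [← RCLike.reCLM_apply, RCLike.reCLM.map_tsum (summable_pr _ hb)]
    refine tsum_congr fun j => ?_
    by_cases hj : 0 ≤ RCLike.re (b j)
    · simp [sg, hj, abs_of_nonneg hj]
    · simp [sg, hj, abs_of_neg (not_le.1 hj)]
  have h1' : ∑' j, |RCLike.im (b j)| ≤ η := by
    have h2 := h (fun j => decide (0 ≤ RCLike.im (b j)))
    have h3 := (RCLike.im_le_norm (pr (fun j => decide (0 ≤ RCLike.im (b j))) b)).trans h2
    refine le_trans (le_of_eq ?_) h3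
    unfold pr
    rw [← RCLike.imCLM_apply, RCLike.imCLM.map_tsum (summable_pr _ hb)]
    refine tsum_congr fun j => ?_
    by_cases hj : 0 ≤ RCLike.im (b j)
    · simp [sg, hj, abs_of_nonneg hj]
    · simp [sg, hj, abs_of_neg (not_le.1 hj)]
  have h4 : ∑' j, ‖b j‖ ≤ ∑' j, (|RCLike.re (b j)| + |RCLike.im (b j)|) :=
    hb.tsum_le_tsum (fun j => norm_le_re_im _) (hre.add him)
  rw [hre.tsum_add him] at h4
  linarith

/-- The sign sequence `ε` up to `M`, constant afterwards. -/
def ext (M : ℕ) (v : Bool) (ε : ℕ → Bool) : ℕ → Bool := fun j => if j < M then ε j else v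

theorem ext_range_finite (M : ℕ) (v : Bool) : (Set.range (ext M v)).Finite := by
  have : Set.range (ext M v) ⊆ Set.range (fun s : Fin M → Bool => fun j : ℕ =>
      if h : j < M then s ⟨j, h⟩ else v) := by
    rintro _ ⟨ε, rfl⟩
    refine ⟨fun i => ε i, ?_⟩
    funext j
    by_cases h : j < M <;> simp [ext, h]
  exact (Set.finite_range _).subset this

/-- Quantitative Schur property. -/
theorem schur (d : ℕ → ℕ → 𝕜) (hd : ∀ i, Summable fun j => ‖d i j‖) (η : ℝ)
    (h : ∀ ε : ℕ → Bool, ∀ᶠ i in atTop, ‖pr ε (d i)‖ ≤ η) :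
    ∀ᶠ i in atTop, ∑' j, ‖d i j‖ ≤ 4 * η := by
  classical
  let F : ℕ → Set (ℕ → Bool) := fun N => {ε | ∀ i, N ≤ i → ‖pr ε (d i)‖ ≤ η}
  have hF : ∀ N, IsClosed (F N) := by
    intro N
    have : F N = ⋂ i, ⋂ _ : N ≤ i, {ε | ‖pr ε (d i)‖ ≤ η} := by
      ext ε; simp [F]
    rw [this]
    exact isClosed_iInter fun i => isClosed_iInter fun _ =>
      isClosed_le (continuous_pr (hd i)).norm continuous_const
  have hU : ⋃ N, F N = Set.univ := by
    rw [Set.eq_univ_iff_forall]
    intro ε
    obtain ⟨N, hN⟩ := eventually_atTop.1 (h ε)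
    exact Set.mem_iUnion.2 ⟨N, hN⟩
  obtain ⟨N, ε₀, hε₀⟩ := nonempty_interior_of_iUnion_of_closed hF hU
  obtain ⟨_, ⟨x, M, rfl⟩, hx0, hsub⟩ := (PiNat.isTopologicalBasis_cylinders
    (E := fun _ : ℕ => Bool)).exists_subset_of_mem_open hε₀ isOpen_interior
  have hcyl : ∀ τ : ℕ → Bool, (∀ j, j < M → τ j = x j) → ∀ i, N ≤ i → ‖pr τ (d i)‖ ≤ η :=
    fun τ hτ => interior_subset (hsub (PiNat.mem_cylinder_iff.2 hτ))
  have hfin : ∀ v : Bool, ∀ᶠ i in atTop, ∀ ε ∈ Set.range (ext M v), ‖pr ε (d i)‖ ≤ η :=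
    fun v => ((ext_range_finite M v).eventually_all).2 fun ε _ => h ε
  filter_upwards [hfin true, hfin false, eventually_ge_atTop N] with i h1 h2 h3
  have hsi := hd i
  -- the tail
  have htail_s : Summable fun j => ‖d i (j + M)‖ :=
    (summable_nat_add_iff (f := fun j => ‖d i j‖) M).2 hsi
  have hsplit : ∀ τ : ℕ → Bool, pr τ (d i) =
      (∑ j ∈ Finset.range M, sg 𝕜 (τ j) * d i j) + pr (fun j => τ (j + M)) (fun j => d i (j + M)) := by
    intro τ
    unfold pr
    exact ((summable_pr τ hsi).sum_add_tsum_nat_add M).symm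
  have htail : ∑' j, ‖d i (j + M)‖ ≤ 2 * η := by
    refine tsum_le_of_signs htail_s fun τ => ?_
    set τ1 : ℕ → Bool := fun j => if j < M then x j else τ (j - M) with hτ1
    set τ2 : ℕ → Bool := fun j => if j < M then x j else !(τ (j - M)) with hτ2
    have a1 := hcyl τ1 (fun j hj => by simp [hτ1, hj]) i h3
    have a2 := hcyl τ2 (fun j hj => by simp [hτ2, hj]) i h3
    have b1 : (fun j => τ1 (j + M)) = τ := by
      funext j; simp [hτ1]
    have b2 : (fun j => τ2 (j + M)) = fun j => !(τ j) := by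
      funext j; simp [hτ2]
    have c1 := hsplit τ1
    have c2 := hsplit τ2
    rw [b1] at c1
    rw [b2] at c2
    have c3 : ∑ j ∈ Finset.range M, sg 𝕜 (τ1 j) * d i j
        = ∑ j ∈ Finset.range M, sg 𝕜 (τ2 j) * d i j := by
      refine Finset.sum_congr rfl fun j hj => ?_
      have := Finset.mem_range.1 hj
      simp [hτ1, hτ2, this]
    have c4 : pr (fun j => !(τ j)) (fun j => d i (j + M)) = - pr τ (fun j => d i (j + M)) := by
      unfold pr
      rw [← tsum_neg]
      refine tsum_congr fun j => ?_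
      rcases hτj : τ j <;> simp [sg, hτj]
    rw [c4, ← c3] at c2
    have c5 : (2 : 𝕜) * pr τ (fun j => d i (j + M)) = pr τ1 (d i) - pr τ2 (d i) := by
      rw [c1, c2]; ring
    have c6 : ‖(2 : 𝕜) * pr τ (fun j => d i (j + M))‖ ≤ η + η := by
      rw [c5]
      exact (norm_sub_le _ _).trans (add_le_add a1 a2)
    rw [norm_mul, RCLike.norm_ofNat] at c6
    linarith
  -- the head
  set b : ℕ → 𝕜 := fun j => if j < M then d i j else 0 with hb
  have hb_s : Summable fun j => ‖b j‖ := by
    refine Summable.of_nonneg_of_le (fun j => norm_nonneg _) (fun j => ?_) hsi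
    by_cases hj : j < M <;> simp [hb, hj]
  have hbM : ∀ j, M ≤ j → b j = 0 := fun j hj => by simp [hb, not_lt.2 hj]
  have hhead : ∑' j, ‖b j‖ ≤ 2 * η := by
    refine tsum_le_of_signs hb_s fun τ => ?_
    have a1 := h1 (ext M true τ) ⟨τ, rfl⟩
    have a2 := h2 (ext M false τ) ⟨τ, rfl⟩
    have c1 := hsplit (ext M true τ)
    have c2 := hsplit (ext M false τ)
    have c3 : pr τ b = ∑ j ∈ Finset.range M, sg 𝕜 (τ j) * d i j := by
      unfold pr
      rw [tsum_eq_sum (s := Finset.range M)]
      · refine Finset.sum_congr rfl fun j hj => ?_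
        have := Finset.mem_range.1 hj
        simp [hb, this]
      · intro j hj
        have : M ≤ j := by simpa using hj
        rw [hbM j this, mul_zero]
    have e1 : ∀ v, ∑ j ∈ Finset.range M, sg 𝕜 (ext M v τ j) * d i j
        = ∑ j ∈ Finset.range M, sg 𝕜 (τ j) * d i j := by
      intro v
      refine Finset.sum_congr rfl fun j hj => ?_
      have := Finset.mem_range.1 hj
      simp [ext, this]
    have e2 : ∀ v, (fun j => ext M v τ (j + M)) = fun _ => v := by
      intro v; funext j; simp [ext]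
    have c4 : pr (fun _ => false) (fun j => d i (j + M))
        = - pr (fun _ => true) (fun j => d i (j + M)) := by
      unfold pr
      rw [← tsum_neg]
      refine tsum_congr fun j => ?_
      simp [sg]
    rw [e1, e2] at c1 c2
    rw [c4] at c2
    have c5 : (2 : 𝕜) * pr τ b = pr (ext M true τ) (d i) + pr (ext M false τ) (d i) := by
      rw [c1, c2, c3]; ring
    have c6 : ‖(2 : 𝕜) * pr τ b‖ ≤ η + η := by
      rw [c5]
      exact (norm_add_le _ _).trans (add_le_add a1 a2)
    rw [norm_mul, RCLike.norm_ofNat] at c6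
    linarith
  have hhead' : ∑ j ∈ Finset.range M, ‖d i j‖ ≤ 2 * η := by
    refine le_trans (le_of_eq ?_) hhead
    rw [tsum_eq_sum (s := Finset.range M)]
    · refine Finset.sum_congr rfl fun j hj => ?_
      have := Finset.mem_range.1 hj
      simp [hb, this]
    · intro j hj
      have : M ≤ j := by simpa using hj
      rw [hbM j this, norm_zero]
  have := hsi.sum_add_tsum_nat_add M
  linarith

end Pool.Agent.X146.RD
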