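import Pool.Agent.X146.RD.Happ
import Pool.Agent.X146.RD.Schur
import Mathlib.Analysis.Normed.Group.Quotient

/-!
# The renormed spaces `Xn`
-/

noncomputable section

open Metric Filter NormedSpace
open scoped ENNReal NNReal Topology

namespace Pool.Agent.X146.RD

universe u v

variable (𝕜 : Type) [RCLike 𝕜]

/-- Absolutely summable scalar sequences. -/
abbrev L1 := lp (fun _ : ℕ => 𝕜) 1

/-- Sign sequences. -/
abbrev Sgn := ℕ → Bool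

variable {𝕜}

theorem l1_summable (a : L1 𝕜) : Summable fun j => ‖a j‖ := by
  have := (lp.memℓp a).summable (by simp)
  simpa using this

theorem l1_norm (a : L1 𝕜) : ‖a‖ = ∑' j, ‖a j‖ := by
  rw [lp.norm_eq_tsum_rpow (by simp)]
  simp

theorem pr_add (ε : Sgn) (a b : L1 𝕜) :
    pr ε (⇑(a + b) : ℕ → 𝕜) = pr ε (⇑a : ℕ → 𝕜) + pr ε (⇑b : ℕ → 𝕜) := by
  unfold pr
  rw [← (summable_pr ε (l1_summable a)).tsum_add (summable_pr ε (l1_summable b))]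
  refine tsum_congr fun j => ?_
  rw [lp.coeFn_add, Pi.add_apply, mul_add]

theorem pr_smul (ε : Sgn) (c : 𝕜) (a : L1 𝕜) :
    pr ε (⇑(c • a) : ℕ → 𝕜) = c * pr ε (⇑a : ℕ → 𝕜) := by
  unfold pr
  rw [← tsum_mul_left]
  refine tsum_congr fun j => ?_
  rw [lp.coeFn_smul, Pi.smul_apply, smul_eq_mul]
  ring

theorem pr_le (ε : Sgn) (a : L1 𝕜) : ‖pr ε (⇑a : ℕ → 𝕜)‖ ≤ ‖a‖ := by
  rw [l1_norm]; exact norm_pr_le ε (l1_summable a)

variable (𝕜)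

/-- The linear map `J`: a summable sequence acts on sign sequences. -/
def JL : L1 𝕜 →ₗ[𝕜] Linf 𝕜 Sgn where
  toFun a := mkLinf (fun ε => pr ε (⇑a : ℕ → 𝕜)) ‖a‖ (fun ε => pr_le ε a)
  map_add' a b := by
    ext ε
    exact pr_add ε a b
  map_smul' c a := by
    ext ε
    exact pr_smul ε c a

/-- The embedding of summable sequences into bounded functions of signs. -/
def J : L1 𝕜 →L[𝕜] Linf 𝕜 Sgn :=
  LinearMap.mkContinuous (JL 𝕜) 1 (by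
    intro a
    rw [one_mul]
    exact lp.norm_le_of_forall_le (norm_nonneg _) fun ε => pr_le ε a)

variable {𝕜}

theorem J_apply (a : L1 𝕜) (ε : Sgn) : J 𝕜 a ε = pr ε (⇑a : ℕ → 𝕜) := rfl

theorem norm_J_le (a : L1 𝕜) : ‖J 𝕜 a‖ ≤ ‖a‖ :=
  lp.norm_le_of_forall_le (norm_nonneg _) fun ε => pr_le ε a

/-- The reciprocal `1 / (n + 1)` as a scalar. -/
def rc (n : ℕ) : ℝ := 1 / ((n : ℝ) + 1)

theorem rc_pos (n : ℕ) : 0 < rc n := by unfold rc; positivity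

theorem rc_le_one (n : ℕ) : rc n ≤ 1 := by
  unfold rc
  rw [div_le_one (by positivity)]
  have : (0 : ℝ) ≤ n := by positivity
  linarith

variable (𝕜)

/-- The map `(a, b) ↦ J a + b / (n + 1)`. -/
def Q (n : ℕ) : (L1 𝕜 × Linf 𝕜 Sgn) →L[𝕜] Linf 𝕜 Sgn :=
  (J 𝕜).comp (ContinuousLinearMap.fst 𝕜 (L1 𝕜) (Linf 𝕜 Sgn)) +
    (rc n : 𝕜) • ContinuousLinearMap.snd 𝕜 (L1 𝕜) (Linf 𝕜 Sgn)

variable {𝕜}

theorem Q_apply (n : ℕ) (p : L1 𝕜 × Linf 𝕜 Sgn) : Q 𝕜 n p = J 𝕜 p.1 + (rc n : 𝕜) • p.2 := rfl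

theorem norm_rc (n : ℕ) : ‖(rc n : 𝕜)‖ = rc n := by
  rw [RCLike.norm_ofReal, abs_of_pos (rc_pos n)]

theorem norm_Q_le (n : ℕ) (p : L1 𝕜 × Linf 𝕜 Sgn) : ‖Q 𝕜 n p‖ ≤ 2 * ‖p‖ := by
  rw [Q_apply]
  refine (norm_add_le _ _).trans ?_
  rw [norm_smul, norm_rc]
  have h1 := (norm_J_le p.1).trans (norm_fst_le p)
  have h2 := norm_snd_le p
  have h3 := rc_le_one n
  have h4 := rc_pos n
  have h5 := norm_nonneg p.2
  nlinarith

variable (𝕜)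

/-- The kernel of `Q n`. -/
def Kn (n : ℕ) : Submodule 𝕜 (L1 𝕜 × Linf 𝕜 Sgn) := LinearMap.ker (Q 𝕜 n).toLinearMap

instance isClosed_Kn (n : ℕ) : IsClosed (Kn 𝕜 n : Set (L1 𝕜 × Linf 𝕜 Sgn)) :=
  (Q 𝕜 n).isClosed_ker

/-- Bounded functions renormed by the quotient norm of `Q n`. -/
abbrev Xn (n : ℕ) : Type := (L1 𝕜 × Linf 𝕜 Sgn) ⧸ Kn 𝕜 n

/-- The linear map induced by `Q n`. -/
def TnL (n : ℕ) : Xn 𝕜 n →ₗ[𝕜] Linf 𝕜 Sgn := (Kn 𝕜 n).liftQ (Q 𝕜 n).toLinearMap le_rfl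

theorem TnL_mk (n : ℕ) (p : L1 𝕜 × Linf 𝕜 Sgn) :
    TnL 𝕜 n (Submodule.Quotient.mk p) = Q 𝕜 n p := rfl

/-- The bounded bijection of `Xn n` with the space of bounded functions. -/
def Tn (n : ℕ) : Xn 𝕜 n →L[𝕜] Linf 𝕜 Sgn :=
  LinearMap.mkContinuous (TnL 𝕜 n) 2 (by
    intro x
    refine le_of_forall_pos_le_add fun ε hε => ?_
    obtain ⟨m, rfl, hm⟩ := Submodule.Quotient.norm_mk_lt x (ε := ε / 2) (by positivity)
    rw [TnL_mk]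
    have := norm_Q_le n m
    linarith)

theorem Tn_mk (n : ℕ) (p : L1 𝕜 × Linf 𝕜 Sgn) :
    Tn 𝕜 n (Submodule.Quotient.mk p : Xn 𝕜 n) = Q 𝕜 n p := rfl

/-- The inverse of `Tn`. -/
def Rn (n : ℕ) : Linf 𝕜 Sgn →L[𝕜] Xn 𝕜 n :=
  LinearMap.mkContinuous ((Kn 𝕜 n).mkQ ∘ₗ
    ((LinearMap.inr 𝕜 (L1 𝕜) (Linf 𝕜 Sgn)) ∘ₗ ((((n : ℝ) + 1 : ℝ) : 𝕜) • LinearMap.id)))
    ((n : ℝ) + 1) (by
    intro b
    refine (Submodule.Quotient.norm_mk_le (S := Kn 𝕜 n)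
      ((0, (((n : ℝ) + 1 : ℝ) : 𝕜) • b) : L1 𝕜 × Linf 𝕜 Sgn)).trans ?_
    rw [Prod.norm_def]
    simp only [norm_zero]
    rw [norm_smul, RCLike.norm_ofReal, abs_of_pos (by positivity : (0:ℝ) < (n : ℝ) + 1)]
    exact max_le (by positivity) le_rfl)

theorem Rn_apply (n : ℕ) (b : Linf 𝕜 Sgn) :
    Rn 𝕜 n b = 
      Submodule.Quotient.mk ((0, (((n : ℝ) + 1 : ℝ) : 𝕜) • b) : L1 𝕜 × Linf 𝕜 Sgn) := rfl

variable {𝕜}

theorem rc_mul (n : ℕ) : (rc n : 𝕜) * (((n : ℝ) + 1 : ℝ) : 𝕜) = 1 := by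
  rw [← RCLike.ofReal_mul]
  have : rc n * ((n : ℝ) + 1) = 1 := by
    unfold rc; field_simp
  rw [this, RCLike.ofReal_one]

theorem Rn_Tn (n : ℕ) (x : Xn 𝕜 n) : Rn 𝕜 n (Tn 𝕜 n x) = x := by
  obtain ⟨⟨a, b⟩, rfl⟩ := Submodule.Quotient.mk_surjective _ x
  rw [Tn_mk, Rn_apply, Submodule.Quotient.eq]
  show Q 𝕜 n ((0, (((n : ℝ) + 1 : ℝ) : 𝕜) • Q 𝕜 n (a, b)) - (a, b)) = 0
  rw [map_sub, Q_apply n (0, _)]
  simp only [map_zero, zero_add, smul_smul, rc_mul, one_smul, sub_self]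

theorem cc_comp {X : Type u} [NormedAddCommGroup X] [NormedSpace 𝕜 X]
    {Z : Type u} [NormedAddCommGroup Z] [NormedSpace 𝕜 Z]
    {Y : Type v} [NormedAddCommGroup Y] [NormedSpace 𝕜 Y] {T : X →L[𝕜] Y}
    (hT : CompletelyContinuous T) (R : Z →L[𝕜] X) : CompletelyContinuous (T.comp R) := by
  intro z hz
  exact hT (fun n => R (z n)) fun φ => hz (φ.comp R)

theorem hApprox_comp {X : Type u} [NormedAddCommGroup X] [NormedSpace 𝕜 X]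
    {Z : Type u} [NormedAddCommGroup Z] [NormedSpace 𝕜 Z]
    {Y : Type v} [NormedAddCommGroup Y] [NormedSpace 𝕜 Y] {T : X →L[𝕜] Y}
    (hT : HApprox T) (R : Z →L[𝕜] X) : HApprox (T.comp R) := by
  intro ε hε
  set c : ℝ := ‖R‖ + 1 with hc
  have hR0 := norm_nonneg R
  have hcpos : 0 < c := by positivity
  have hc0 : ((c : ℝ) : 𝕜) ≠ 0 := by exact_mod_cast hcpos.ne'
  obtain ⟨q, hq0, ⟨M, hM⟩, hpar, δ, hδ, hq⟩ := hT (ε / c) (by positivity)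
  set R' : Z →L[𝕜] X := ((c : 𝕜))⁻¹ • R with hR'
  have hball : ∀ z : Z, ‖z‖ ≤ 1 → ‖R' z‖ ≤ 1 := by
    intro z hz
    rw [hR', smul_apply, norm_smul, norm_inv, RCLike.norm_ofReal,
      abs_of_pos hcpos, inv_mul_le_iff₀ hcpos]
    have := R.le_opNorm z
    nlinarith
  have hcR : ∀ z : Z, R z = (c : 𝕜) • R' z := by
    intro z
    rw [hR', smul_apply, smul_smul, mul_inv_cancel₀ hc0, one_smul]
  refine ⟨fun z => q (R' z), fun z => hq0 _, ⟨M, fun z hz => hM _ (hball z hz)⟩, ?_, δ, hδ, ?_⟩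
  · intro f g hf hg
    have := hpar (R' f) (R' g) (hball f hf) (hball g hg)
    simpa only [map_sub, map_smul, map_add] using this
  · intro f g hf hg h
    simp only [map_sub] at h
    have h1 := hq (R' f) (R' g) (hball f hf) (hball g hg) h
    rw [ContinuousLinearMap.comp_apply, ContinuousLinearMap.comp_apply, hcR f, hcR g, map_smul,
      map_smul, ← smul_sub, norm_smul, RCLike.norm_ofReal, abs_of_pos hcpos]
    calc c * ‖T (R' f) - T (R' g)‖ ≤ c * (ε / c) := by gcongr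
      _ = ε := by field_simp

theorem hApprox_Xn {Y : Type v} [NormedAddCommGroup Y] [NormedSpace 𝕜 Y] (n : ℕ)
    {T : Xn 𝕜 n →L[𝕜] Y} (hT : CompletelyContinuous T) : HApprox T := by
  have h1 : HApprox (T.comp (Rn 𝕜 n)) := hApprox_linf (cc_comp hT (Rn 𝕜 n))
  have h2 : HApprox ((T.comp (Rn 𝕜 n)).comp (Tn 𝕜 n)) := hApprox_comp h1 (Tn 𝕜 n)
  have e : (T.comp (Rn 𝕜 n)).comp (Tn 𝕜 n) = T := by
    ext x
    simp only [ContinuousLinearMap.comp_apply, Rn_Tn]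
  rwa [e] at h2

end Pool.Agent.X146.RD
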