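import Pool.Agent.X146.RD.Defs

/-!
# A criterion for weak compactness by Hilbertian-like functions
-/

noncomputable section

open Metric NormedSpace
open scoped ENNReal NNReal Topology

namespace Pool.Agent.X146.RD

universe u v

variable {𝕜 : Type} [RCLike 𝕜]
variable {X : Type u} [NormedAddCommGroup X] [NormedSpace 𝕜 X]
variable {Y : Type v} [NormedAddCommGroup Y] [NormedSpace 𝕜 Y]

/-- For every `ε` some function with a parallelogram inequality controls `T` on the ball. -/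
def HApprox (T : X →L[𝕜] Y) : Prop :=
  ∀ ε : ℝ, 0 < ε → ∃ q : X → ℝ, (∀ x, 0 ≤ q x) ∧ (∃ M : ℝ, ∀ x, ‖x‖ ≤ 1 → q x ≤ M) ∧
    (∀ f g : X, ‖f‖ ≤ 1 → ‖g‖ ≤ 1 →
      q (f - g) + 4 * q ((2⁻¹ : 𝕜) • (f + g)) ≤ 2 * q f + 2 * q g) ∧
    ∃ δ : ℝ, 0 < δ ∧ ∀ f g : X, ‖f‖ ≤ 1 → ‖g‖ ≤ 1 → q (f - g) ≤ δ → ‖T f - T g‖ ≤ ε

/-- Finite-dimensional approximation from weak-star closure. -/
theorem exists_near (T : X →L[𝕜] Y) (a : WeakDual 𝕜 (StrongDual 𝕜 Y))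
    (ha : a ∈ closure (inclusionInDoubleDualWeak 𝕜 Y '' (toWeakSpace 𝕜 Y ''
      (T '' closedBall 0 1)))) (F : Finset (StrongDual 𝕜 Y)) (η : ℝ) (hη : 0 < η) :
    ∃ x : X, ‖x‖ ≤ 1 ∧ ∀ φ ∈ F, ‖a φ - φ (T x)‖ < η := by
  classical
  set U : Set (WeakDual 𝕜 (StrongDual 𝕜 Y)) := {b | ∀ φ ∈ F, ‖a φ - b φ‖ < η} with hU
  have hUo : IsOpen U := by
    have : U = ⋂ φ ∈ F, {b | ‖a φ - b φ‖ < η} := by
      ext b; simp [hU]
    rw [this]
    refine isOpen_biInter_finset fun φ _ => ?_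
    exact isOpen_lt (continuous_const.sub (WeakDual.eval_continuous φ)).norm continuous_const
  obtain ⟨b, hbU, hb⟩ := mem_closure_iff.1 ha U hUo (by
    intro φ _; simpa using hη)
  obtain ⟨s, ⟨y, ⟨x, hx, rfl⟩, rfl⟩, rfl⟩ := hb
  refine ⟨x, by simpa using hx, fun φ hφ => ?_⟩
  exact hbU φ hφ

theorem norm_half_add_le {f g : X} (hf : ‖f‖ ≤ 1) (hg : ‖g‖ ≤ 1) :
    ‖(2⁻¹ : 𝕜) • (f + g)‖ ≤ 1 := by
  rw [norm_smul]
  have h2 : ‖(2⁻¹ : 𝕜)‖ = 2⁻¹ := by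
    rw [norm_inv, RCLike.norm_ofNat]
  rw [h2]
  have := norm_add_le f g
  linarith

theorem exists_close (T : X →L[𝕜] Y) (h : HApprox T) (a : WeakDual 𝕜 (StrongDual 𝕜 Y))
    (ha : a ∈ closure (inclusionInDoubleDualWeak 𝕜 Y '' (toWeakSpace 𝕜 Y ''
      (T '' closedBall 0 1)))) (ε : ℝ) (hε : 0 < ε) :
    ∃ x : X, ‖x‖ ≤ 1 ∧ ∀ φ : StrongDual 𝕜 Y, ‖a φ - φ (T x)‖ ≤ ε * ‖φ‖ := by
  classical
  obtain ⟨q, hq0, ⟨M, hM⟩, hpar, δ, hδ, hq⟩ := h ε hε
  -- the approximating convex sets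
  let C : Finset (StrongDual 𝕜 Y) × ℕ → Set X := fun i =>
    {x | ‖x‖ ≤ 1 ∧ ∀ φ ∈ i.1, ‖a φ - φ (T x)‖ < 1 / ((i.2 : ℝ) + 1)}
  have hCne : ∀ i, (C i).Nonempty := by
    intro i
    obtain ⟨x, hx, hx'⟩ := exists_near T a ha i.1 (1 / ((i.2 : ℝ) + 1)) (by positivity)
    exact ⟨x, hx, hx'⟩
  have hCmono : ∀ i j : Finset (StrongDual 𝕜 Y) × ℕ, i.1 ⊆ j.1 → i.2 ≤ j.2 → C j ⊆ C i := by
    intro i j h1 h2 x hx
    refine ⟨hx.1, fun φ hφ => (hx.2 φ (h1 hφ)).trans_le ?_⟩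
    apply one_div_le_one_div_of_le (by positivity)
    have : (i.2 : ℝ) ≤ j.2 := by exact_mod_cast h2
    linarith
  have hCconv : ∀ i, ∀ f ∈ C i, ∀ g ∈ C i, (2⁻¹ : 𝕜) • (f + g) ∈ C i := by
    intro i f hf g hg
    refine ⟨norm_half_add_le hf.1 hg.1, fun φ hφ => ?_⟩
    have e : a φ - φ (T ((2⁻¹ : 𝕜) • (f + g)))
        = (2⁻¹ : 𝕜) * ((a φ - φ (T f)) + (a φ - φ (T g))) := by
      rw [map_smul, map_add, map_smul, map_add, smul_eq_mul]
      ring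
    rw [e, norm_mul]
    have h2 : ‖(2⁻¹ : 𝕜)‖ = 2⁻¹ := by rw [norm_inv, RCLike.norm_ofNat]
    rw [h2]
    have h3 := norm_add_le (a φ - φ (T f)) (a φ - φ (T g))
    have h4 := hf.2 φ hφ
    have h5 := hg.2 φ hφ
    linarith
  let r : Finset (StrongDual 𝕜 Y) × ℕ → ℝ := fun i => sInf (q '' C i)
  have hbdd : ∀ i, BddBelow (q '' C i) := fun i => ⟨0, by rintro _ ⟨x, _, rfl⟩; exact hq0 x⟩
  have hrle : ∀ i, ∀ x ∈ C i, r i ≤ q x := fun i x hx => csInf_le (hbdd i) ⟨x, hx, rfl⟩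
  have hrM : ∀ i, r i ≤ M := by
    intro i
    obtain ⟨x, hx⟩ := hCne i
    exact (hrle i x hx).trans (hM x hx.1)
  have hBA : BddAbove (Set.range r) := ⟨M, by rintro _ ⟨i, rfl⟩; exact hrM i⟩
  set R : ℝ := ⨆ i, r i with hR
  have hrR : ∀ i, r i ≤ R := fun i => le_ciSup hBA i
  have hnear : ∀ i, ∃ x ∈ C i, q x < r i + δ / 8 := by
    intro i
    obtain ⟨y, ⟨x, hx, rfl⟩, hlt⟩ := exists_lt_of_csInf_lt ((hCne i).image q)
      (show sInf (q '' C i) < r i + δ / 8 by show r i < _; linarith)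
    exact ⟨x, hx, hlt⟩
  obtain ⟨i₀, hi₀⟩ : ∃ i, R - δ / 8 < r i :=
    exists_lt_of_lt_ciSup (show R - δ / 8 < ⨆ i, r i by rw [← hR]; linarith)
  obtain ⟨x₀, hx₀, hx₀q⟩ := hnear i₀
  refine ⟨x₀, hx₀.1, fun φ => ?_⟩
  -- compare with better approximations
  have key : ∀ n : ℕ, ‖a φ - φ (T x₀)‖ ≤ ε * ‖φ‖ + 1 / ((n : ℝ) + 1) := by
    intro n
    set i : Finset (StrongDual 𝕜 Y) × ℕ := (insert φ i₀.1, max i₀.2 n) with hi
    obtain ⟨x, hx, hxq⟩ := hnear i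
    have hxi₀ : x ∈ C i₀ := hCmono i₀ i (Finset.subset_insert _ _) (le_max_left _ _) hx
    have hmid := hrle i₀ _ (hCconv i₀ x hxi₀ x₀ hx₀)
    have hp := hpar x x₀ hx.1 hx₀.1
    have h1 := hrR i
    have h2 := hrR i₀
    have hsmall : q (x - x₀) ≤ δ := by linarith
    have hT := hq x x₀ hx.1 hx₀.1 hsmall
    have h3 : ‖a φ - φ (T x)‖ < 1 / ((max i₀.2 n : ℕ) + 1 : ℝ) :=
      hx.2 φ (Finset.mem_insert_self _ _)
    have h4 : (1 : ℝ) / ((max i₀.2 n : ℕ) + 1 : ℝ) ≤ 1 / ((n : ℝ) + 1) := by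
      apply one_div_le_one_div_of_le (by positivity)
      have : (n : ℝ) ≤ (max i₀.2 n : ℕ) := by exact_mod_cast le_max_right _ _
      linarith
    have h5 : ‖φ (T x) - φ (T x₀)‖ ≤ ‖φ‖ * ε := by
      rw [← map_sub]
      exact (φ.le_opNorm _).trans (by gcongr)
    have h6 : a φ - φ (T x₀) = (a φ - φ (T x)) + (φ (T x) - φ (T x₀)) := by ring
    rw [h6]
    have h7 := norm_add_le (a φ - φ (T x)) (φ (T x) - φ (T x₀))
    have : ‖φ‖ * ε = ε * ‖φ‖ := mul_comm _ _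
    linarith
  have hlim : Filter.Tendsto (fun n : ℕ => ε * ‖φ‖ + 1 / ((n : ℝ) + 1)) Filter.atTop
      (𝓝 (ε * ‖φ‖ + 0)) :=
    tendsto_const_nhds.add tendsto_one_div_add_atTop_nhds_zero_nat
  rw [add_zero] at hlim
  exact ge_of_tendsto' hlim key

theorem weaklyCompact_of_hApprox [CompleteSpace Y] (T : X →L[𝕜] Y) (h : HApprox T) :
    WeaklyCompact T := by
  unfold WeaklyCompact
  apply isCompact_closure_of_isBounded
  · have e : (toWeakSpace 𝕜 Y) ⁻¹' (toWeakSpace 𝕜 Y '' (T '' closedBall 0 1))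
        = T '' closedBall 0 1 := by
      rw [Set.preimage_image_eq _ (toWeakSpace 𝕜 Y).injective]
    rw [e]
    exact T.lipschitz.isBounded_image isBounded_closedBall
  · intro a ha
    choose x hx hxa using fun n : ℕ => exists_close T h a ha (1 / ((n : ℝ) + 1)) (by positivity)
    have hb : ∀ m n N : ℕ, N ≤ m → N ≤ n → dist (T (x m)) (T (x n)) ≤ 2 / ((N : ℝ) + 1) := by
      intro m n N hm hn
      rw [dist_eq_norm]
      refine norm_le_dual_bound 𝕜 _ (by positivity) fun φ => ?_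
      have h1 := hxa m φ
      have h2 := hxa n φ
      have e : φ (T (x m) - T (x n)) = (a φ - φ (T (x n))) - (a φ - φ (T (x m))) := by
        rw [map_sub]; ring
      rw [e]
      have h3 := norm_sub_le (a φ - φ (T (x n))) (a φ - φ (T (x m)))
      have h4 : (1 : ℝ) / ((m : ℝ) + 1) ≤ 1 / ((N : ℝ) + 1) := by
        apply one_div_le_one_div_of_le (by positivity)
        have : (N : ℝ) ≤ m := by exact_mod_cast hm
        linarith
      have h5 : (1 : ℝ) / ((n : ℝ) + 1) ≤ 1 / ((N : ℝ) + 1) := by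
        apply one_div_le_one_div_of_le (by positivity)
        have : (N : ℝ) ≤ n := by exact_mod_cast hn
        linarith
      have h6 : (2 : ℝ) / ((N : ℝ) + 1) = 1 / ((N : ℝ) + 1) + 1 / ((N : ℝ) + 1) := by ring
      rw [h6]
      nlinarith [norm_nonneg φ, mul_le_mul_of_nonneg_right h4 (norm_nonneg φ),
        mul_le_mul_of_nonneg_right h5 (norm_nonneg φ)]
    have hlim0 : Filter.Tendsto (fun N : ℕ => (2 : ℝ) / ((N : ℝ) + 1)) Filter.atTop (𝓝 0) := by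
      have := (tendsto_one_div_add_atTop_nhds_zero_nat (𝕜 := ℝ)).const_mul 2
      simpa [div_eq_mul_inv] using this
    obtain ⟨y, hy⟩ := cauchySeq_tendsto_of_complete (cauchySeq_of_le_tendsto_0 _ hb hlim0)
    refine ⟨toWeakSpace 𝕜 Y y, ?_⟩
    apply DFunLike.ext
    intro φ
    show φ y = a φ
    have t1 : Filter.Tendsto (fun n => φ (T (x n))) Filter.atTop (𝓝 (φ y)) :=
      (φ.continuous.tendsto y).comp hy
    have t2 : Filter.Tendsto (fun n => a φ - φ (T (x n))) Filter.atTop (𝓝 0) := by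
      have h0 : Filter.Tendsto (fun n : ℕ => 1 / ((n : ℝ) + 1) * ‖φ‖) Filter.atTop (𝓝 0) := by
        have := (tendsto_one_div_add_atTop_nhds_zero_nat (𝕜 := ℝ)).mul_const ‖φ‖
        simpa using this
      exact squeeze_zero_norm (fun n => hxa n φ) h0
    have t3 : Filter.Tendsto (fun n => φ (T (x n))) Filter.atTop (𝓝 (a φ)) := by
      have := (tendsto_const_nhds (x := a φ)).sub t2
      simpa using this
    exact tendsto_nhds_unique t1 t3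

end Pool.Agent.X146.RD
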